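import Pool.Agent.J4.H24.CI.Im

/-!
# Another base point of the node
-/

set_option autoImplicit false

namespace Pool.Agent.J4.H24.CI

open Relation Pool.Agent.W185.SRG Pool.Agent.J4.H77.CG

variable {V W : Type} [Fintype V] [Fintype W] {G : SimpleGraph V} {H : SimpleGraph W} {N : ℕ}
  {σ ρ η : V → V → Prop} {o : V → V → Prop}

omit [Fintype V] in
theorem Ba.side {σ ρ : V → V → Prop} (eσ : Equivalence σ)
    (s3 : ∀ x y z, ρ x y → ρ y z → ¬ σ x y → ¬ σ y z → σ x z) {x y u : V} (hxy : ρ x y)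
    (hyu : ρ y u) : σ y u ↔ (σ x y ↔ σ x u) := by
  constructor
  · intro h
    exact ⟨fun h' => eσ.trans h' h, fun h' => eσ.trans h' (eσ.symm h)⟩
  · intro h
    by_contra hn
    by_cases h1 : σ x y
    · exact hn (eσ.trans (eσ.symm h1) (h.1 h1))
    · exact h1 (h.2 (s3 x y u hxy hyu h1 hn))

theorem is_base (hN : 5 ≤ N) (eσ : Equivalence σ) (eρ : Equivalence ρ) (iσ : Iv G N σ)
    (iρ : Iv G N ρ) (s3 : ∀ x y z, ρ x y → ρ y z → ¬ σ x y → ¬ σ y z → σ x z)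
    {x y : V} {x' y' : W} (hT : T G H N [(x, x'), (y, y')]) (hxy : ρ x y)
    {f : V → W} (hf : Is G H σ ρ (Im G H N σ) (Im G H N ρ) x x' f) :
    Is G H σ ρ (Im G H N σ) (Im G H N ρ) y y' f := by
  have hTx : T G H N [(x, x')] := hT.mono (by simp)
  have eρ' : Equivalence (Im G H N ρ) := im_equiv hN iρ eρ hTx
  have hxy' : Im G H N ρ x' y' := (im_iff hN iρ hT).1 hxy
  have e1 : {z | ρ y z} = {z | ρ x z} := by
    ext z
    exact ⟨fun h => eρ.trans hxy h, fun h => eρ.trans (eρ.symm hxy) h⟩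
  have e2 : {z' | Im G H N ρ y' z'} = {z' | Im G H N ρ x' z'} := by
    ext z
    exact ⟨fun h => eρ'.trans hxy' h, fun h => eρ'.trans (eρ'.symm hxy') h⟩
  obtain ⟨h1, h2, h3⟩ := hf
  refine ⟨by rw [e1, e2]; exact h1, fun u v hu hv => h2 u v (eρ.trans hxy hu) (eρ.trans hxy hv),
    fun u hu => ?_⟩
  have hxu : ρ x u := eρ.trans hxy hu
  have hfu : Im G H N ρ x' (f u) := h1.mapsTo hxu
  obtain ⟨w, hw⟩ := T_back hT (by simp; omega) (by simp) (f u)
  have tx : T G H N [(x, x'), (w, f u)] := hw.mono (by simp)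
  have ty : T G H N [(y, y'), (w, f u)] := hw.mono (by simp)
  have hxw : ρ x w := (im_iff hN iρ tx).2 hfu
  have hyw : ρ y w := eρ.trans (eρ.symm hxy) hxw
  rw [Ba.side eσ s3 hxy hu, h3 u hxu, ← im_iff hN iσ ty, Ba.side eσ s3 hxy hyw,
    ← im_iff hN iσ tx]

end Pool.Agent.J4.H24.CI
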