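import Pool.Agent.J4.H24.CI.Un

/-! Project CF, piece BL. -/

set_option autoImplicit false

namespace Pool.Agent.J4.H24.CI

open Relation

variable {V : Type} {E σ ρ : V → V → Prop} {o : V → V → Prop}

namespace BlAux

lemma inc_symm (h : Nd E σ ρ o) {x y : V} (hi : Inc E σ x y) : Inc E σ y x :=
  ⟨h.ss _ _ hi.1, hi.2.2, hi.2.1⟩

lemma sup_swap (h : Nd E σ ρ o) {x y u : V} (hu : Sup E σ x y u) : Sup E σ y x u := by
  obtain ⟨v, h1 | h1⟩ := hu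
  · exact ⟨v, Or.inr (ga_swap h h1)⟩
  · exact ⟨v, Or.inl (ga_swap h h1)⟩

lemma span_symm (h : Nd E σ ρ o) {x y : V} (hs : Span E σ ρ x y) : Span E σ ρ y x :=
  ⟨inc_symm h hs.1, h.rs _ _ hs.2.1, fun w hw => sup_swap h (hs.2.2 w (h.rt _ _ _ hs.2.1 hw))⟩

lemma r_symm (h : Nd E σ ρ o) {x y : V} (hr : R E σ ρ x y) : R E σ ρ y x := by
  obtain ⟨h1, h2, h3⟩ := hr
  refine ⟨h.rs _ _ h1, h.ss _ _ h2, ?_⟩
  rcases h3 with h3 | ⟨h3, h4⟩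
  · exact Or.inl fun z => (h3 z).symm
  · exact Or.inr ⟨inc_symm h h3, fun h5 => h4 (span_symm h h5)⟩

lemma twin_span (h : Nd E σ ρ o) {a x b : V} (h1 : Span E σ ρ a x) (hab : ρ a b) (hs : σ a b)
    (ht : ∀ z, E a z ↔ E b z) : Span E σ ρ b x := by
  obtain ⟨⟨h2, ⟨p, h3, h4⟩, q, h5, h6⟩, h7, h8⟩ := h1
  have hσ : σ b x := h.st _ _ _ (h.ss _ _ hs) h2
  have hg : Ga E σ (b, x) (a, x) := by
    have e1 : Q E σ b x p q := ⟨hσ, (ht p).1 h3, h5, fun h9 => h6 ((ht q).2 h9), h4⟩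
    have e2 : Q E σ a x p q := ⟨h2, h3, h5, h6, h4⟩
    exact (ReflTransGen.single (a := (b, x)) (b := (p, q)) e1).tail (q_symm h e2)
  refine ⟨⟨hσ, ⟨p, (ht p).1 h3, h4⟩, q, h5, fun h9 => h6 ((ht q).2 h9)⟩,
    h.rt _ _ _ (h.rs _ _ hab) h7, fun w hw => ?_⟩
  obtain ⟨v, h9 | h9⟩ := h8 w (h.rt _ _ _ hab hw)
  · exact ⟨v, Or.inl (hg.trans h9)⟩
  · exact ⟨v, Or.inr (hg.trans h9)⟩

end BlAux

open BlAux

theorem s_symm (h : Nd E σ ρ o) {u v : V} (hs : S E σ ρ u v) : S E σ ρ v u := by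
  induction hs with
  | refl => exact ReflTransGen.refl
  | tail _ h2 ih => exact ReflTransGen.head (r_symm h h2) ih

theorem s_rho (h : Nd E σ ρ o) {u v : V} (hs : S E σ ρ u v) : ρ u v ∧ σ u v := by
  induction hs with
  | refl => exact ⟨h.rr _, h.sr _⟩
  | tail _ h2 ih => exact ⟨h.rt _ _ _ ih.1 h2.1, h.st _ _ _ ih.2 h2.2.1⟩

theorem span_S (h : Nd E σ ρ o) {a x b : V} (h1 : Span E σ ρ a x) (hs : S E σ ρ a b) :
    Span E σ ρ b x := by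
  induction hs with
  | refl => exact h1
  | tail _ h2 ih =>
    obtain ⟨h3, h4, h5 | ⟨h5, h6⟩⟩ := h2
    · exact twin_span h ih h3 h4 h5
    · exact (span_other h ih h3 h5 h6).1

theorem not_S (h : Nd E σ ρ o) {a x : V} (h1 : Span E σ ρ a x) : ¬ S E σ ρ a x := by
  intro hs
  obtain ⟨⟨-, ⟨p, h2, h3⟩, -⟩, -⟩ := span_S h h1 hs
  exact h3 h2

end Pool.Agent.J4.H24.CI
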