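import Pool.Agent.J4.H24.CI.Defs

/-!
# A vertex outside of the support sees each side of the support uniformly
-/

set_option autoImplicit false

namespace Pool.Agent.J4.H24.CI

open Relation

variable {V : Type} {E σ ρ : V → V → Prop} {o : V → V → Prop}

namespace SU

theorem qs (h : Nd E σ ρ o) {x y p q : V} (hq : Q E σ x y p q) : Q E σ p q x y :=
  ⟨h.q4 x y p q hq.1 hq.2.1 hq.2.2.1, h.es _ _ hq.2.1, h.es _ _ hq.2.2.1,
    fun hh => hq.2.2.2.2 (h.es _ _ hh), fun hh => hq.2.2.2.1 (h.es _ _ hh)⟩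

theorem gs (h : Nd E σ ρ o) {s t : V × V} (hst : Ga E σ s t) : Ga E σ t s := by
  unfold Ga at hst ⊢
  induction hst with
  | refl => exact ReflTransGen.refl
  | tail _ hq ih => exact ReflTransGen.head (qs h hq) ih

theorem gi (h : Nd E σ ρ o) {x y : V} (hi : Inc E σ x y) {s : V × V}
    (hg : Ga E σ (x, y) s) : Inc E σ s.1 s.2 := by
  unfold Ga at hg
  induction hg with
  | refl => exact hi
  | tail _ hq _ =>
    have h1 := qs h hq
    exact ⟨h1.1, ⟨_, h1.2.1, h1.2.2.2.2⟩, ⟨_, h1.2.2.1, h1.2.2.2.1⟩⟩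

/-- a vertex outside of the support does not separate the pairs of the class -/
theorem sep (h : Nd E σ ρ o) {x y z : V} (hi : Inc E σ x y) (hz : ¬ Sup E σ x y z) {s t : V}
    (hg : Ga E σ (x, y) (s, t)) : E s z ↔ E t z := by
  obtain ⟨h1, ⟨p, hp1, hp2⟩, ⟨q, hq1, hq2⟩⟩ := gi h hi hg
  constructor
  · intro h2
    by_contra h3
    exact hz ⟨q, Or.inl (ReflTransGen.tail hg ⟨h1, h2, hq1, hq2, h3⟩)⟩
  · intro h2
    by_contra h3
    exact hz ⟨p, Or.inr (ReflTransGen.tail hg ⟨h1, hp1, h2, h3, hp2⟩)⟩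

/-- the pairs of the class on the side of the first pair -/
theorem chain (h : Nd E σ ρ o) {x y z : V} (hi : Inc E σ x y) (hz : ¬ Sup E σ x y z) {a b : V}
    (ha : Ga E σ (x, y) (a, b)) {s : V × V} (hg : Ga E σ (a, b) s) :
    (σ a s.1 ∧ (E s.1 z ↔ E a z)) ∨
      ∀ c d, Q E σ s.1 s.2 c d → σ a c ∧ (E c z ↔ E a z) := by
  unfold Ga at hg
  induction hg with
  | refl => exact Or.inl ⟨h.sr a, Iff.rfl⟩
  | @tail s t hs hq ih =>
    rcases ih with ⟨h1, h2⟩ | h1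
    · right
      intro c d hc
      have hgs : Ga E σ (x, y) s := ReflTransGen.trans ha hs
      have hgt : Ga E σ (x, y) t := ReflTransGen.tail hgs hq
      have hgc : Ga E σ (x, y) (c, d) := ReflTransGen.tail hgt hc
      have hq' := qs h hq
      -- `(s.1, d)` is in the class
      have h3 : σ s.1 d := h.q4 t.1 t.2 s.1 d hq'.1 hq'.2.1 hc.2.2.1
      have h4 : Q E σ s.1 d t.1 t.2 :=
        ⟨h3, hq.2.1, h.es _ _ hc.2.2.1, hq.2.2.2.1, fun hh => hc.2.2.2.1 (h.es _ _ hh)⟩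
      have h5 : Ga E σ (x, y) (s.1, d) := ReflTransGen.tail hgt (qs h h4)
      have h6 := sep h hi hz h5
      have h7 := sep h hi hz hgc
      have h8 : σ s.1 c := h.q4 t.1 t.1 s.1 c (h.sr _) hq'.2.1 hc.2.1
      exact ⟨h.st _ _ _ h1 h8, h7.trans (h6.symm.trans h2)⟩
    · exact Or.inl (h1 t.1 t.2 hq)

end SU

theorem sup_unif (h : Nd E σ ρ o) {x y z : V} (hi : Inc E σ x y) (hz : ¬ Sup E σ x y z) {u v : V}
    (hu : Sup E σ x y u) (hv : Sup E σ x y v) (huv : σ u v) : E u z ↔ E v z := by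
  obtain ⟨h1, ⟨p, hp1, hp2⟩, ⟨q, hq1, hq2⟩⟩ := id hi
  have hQ : Q E σ x y p q := ⟨h1, hp1, hq1, hq2, hp2⟩
  have hxp : ¬ σ x p := h.en _ _ hp1
  have hgp : Ga E σ (x, y) (p, q) := ReflTransGen.single hQ
  have key : ∀ s : V × V, Ga E σ (x, y) s →
      (σ x s.1 ∧ (E s.1 z ↔ E x z)) ∨ (σ p s.1 ∧ (E s.1 z ↔ E p z)) := by
    intro s hs
    have hs' : Ga E σ (p, q) s := ReflTransGen.trans (SU.gs h hgp) hs
    rcases SU.chain h hi hz ReflTransGen.refl hs with h2 | h2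
    · exact Or.inl h2
    rcases SU.chain h hi hz hgp hs' with h3 | h3
    · exact Or.inr h3
    exfalso
    obtain ⟨g1, ⟨c, hc1, hc2⟩, ⟨d, hd1, hd2⟩⟩ := SU.gi h hi hs
    have hc : Q E σ s.1 s.2 c d := ⟨g1, hc1, hd1, hd2, hc2⟩
    exact hxp (h.st _ _ _ (h2 c d hc).1 (h.ss _ _ (h3 c d hc).1))
  have key' : ∀ w, Sup E σ x y w →
      (σ x w ∧ (E w z ↔ E x z)) ∨ (σ p w ∧ (E w z ↔ E p z)) := by
    rintro w ⟨w', hw | hw⟩
    · exact key _ hw
    · have h2 := SU.sep h hi hz hw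
      have h3 := (SU.gi h hi hw).1
      rcases key _ hw with ⟨h4, h5⟩ | ⟨h4, h5⟩
      · exact Or.inl ⟨h.st _ _ _ h4 h3, h2.symm.trans h5⟩
      · exact Or.inr ⟨h.st _ _ _ h4 h3, h2.symm.trans h5⟩
  rcases key' u hu with ⟨a1, a2⟩ | ⟨a1, a2⟩ <;> rcases key' v hv with ⟨b1, b2⟩ | ⟨b1, b2⟩
  · exact a2.trans b2.symm
  · exact absurd (h.st _ _ _ a1 (h.st _ _ _ huv (h.ss _ _ b1))) hxp
  · exact absurd (h.st _ _ _ b1 (h.st _ _ _ (h.ss _ _ huv) (h.ss _ _ a1))) hxp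
  · exact a2.trans b2.symm

end Pool.Agent.J4.H24.CI
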