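import Pool.Agent.J4.H24.CI.Defs
import Pool.Agent.J4.H24.CI.Ga
import Pool.Agent.J4.H24.CI.Su

/-!
# Betweenness: the core
-/

set_option autoImplicit false

namespace Pool.Agent.J4.H24.CI

open Relation

variable {V : Type} {E σ ρ : V → V → Prop} {o : V → V → Prop}

theorem bt_rho (h : Nd E σ ρ o) {a b k : V} (hab : ρ a b) (hk : Sup E σ a b k) : ρ a k := by
  obtain ⟨v, hv | hv⟩ := hk
  · exact (ga_rho h hab hv).1
  · exact (ga_rho h hab hv).2

/-- two vertices of the node which are not on the side of `a` are on one side -/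
theorem bt_side (h : Nd E σ ρ o) {a u v : V} (hu : ρ a u) (hv : ρ a v) (h1 : ¬ σ a u)
    (h2 : ¬ σ a v) : σ u v :=
  h.s3 u a v (h.rs _ _ hu) hv (fun h' => h1 (h.ss _ _ h')) h2

/-- the case that `x` sees nothing of the support of `a, b` -/
theorem btwA (h : Nd E σ ρ o) {a x b b' : V} (hρ : ρ a x) (hab : ρ a b)
    (hi : Inc E σ a b) (hb' : E b b') (hKb' : Sup E σ a b b')
    (hx : ¬ Sup E σ a b x) (hn : ∀ k, Sup E σ a b k → ¬ E x k)
    (hno : ¬ Ga E σ (a, x) (b, x)) {t : V × V} (ht : Ga E σ (a, x) t) :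
    Sup E σ a b t.1 ∧ ¬ Sup E σ a b t.2 ∧ (∀ k, Sup E σ a b k → ¬ E t.2 k) ∧
      ((σ a t.1 ∧ Ga E σ (b, x) (b, t.2)) ∨ (¬ σ a t.1 ∧ Ga E σ (b, x) (b', t.2))) := by
  have hKa : Sup E σ a b a := ⟨b, Or.inl ReflTransGen.refl⟩
  have hKb : Sup E σ a b b := ⟨a, Or.inr ReflTransGen.refl⟩
  have hσab' : ¬ σ a b' := fun h' =>
    h.en _ _ hb' (h.st _ _ _ (h.ss _ _ hi.1) h')
  induction ht with
  | refl => exact ⟨hKa, hx, hn, Or.inl ⟨h.sr a, ReflTransGen.refl⟩⟩
  | @tail s t hs hst ih =>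
    obtain ⟨p, r⟩ := s
    obtain ⟨q, s⟩ := t
    obtain ⟨hp, hr, hrn, hcase⟩ := ih
    obtain ⟨hpr, hpq, hrs, hps, hrq⟩ := hst
    simp only at hp hr hrn hcase hpr hpq hrs hps hrq ⊢
    have hsK : ¬ Sup E σ a b s := fun hk => hrn s hk hrs
    have hqs : σ q s := h.q4 p r q s hpr hpq hrs
    have htot : Ga E σ (a, x) (q, s) := hs.tail ⟨hpr, hpq, hrs, hps, hrq⟩
    have hrhot := ga_rho h hρ htot
    have hρp := bt_rho h hab hp
    have hnpq : ¬ σ p q := h.en _ _ hpq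
    have hnps : ¬ σ p s := fun h' => hnpq (h.st _ _ _ h' (h.ss _ _ hqs))
    have hsn : ∀ k, Sup E σ a b k → ¬ E s k := by
      intro k hk hsk
      by_cases hkp : σ k p
      · exact hps ((sup_unif h hi hsK hk hp hkp).1 (h.es _ _ hsk))
      · have hρk := bt_rho h hab hk
        exact h.en _ _ hsk (h.ss _ _ (h.s3 k p s (h.rt _ _ _ (h.rs _ _ hρk) hρp)
          (h.rt _ _ _ (h.rs _ _ hρp) hrhot.2) hkp hnps))
    rcases hcase with ⟨hap, hbr⟩ | ⟨hap, hbr⟩
    · have hσbr : σ b r := h.st _ _ _ (h.ss _ _ hi.1) (h.st _ _ _ hap hpr)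
      have hqK : Sup E σ a b q := by
        by_contra hq
        have hbp : σ p b := h.st _ _ _ (h.ss _ _ hap) hi.1
        have hbq : E b q := (sup_unif h hi hq hp hKb hbp).1 hpq
        have h1 : Ga E σ (b, x) (q, s) :=
          hbr.tail ⟨hσbr, hbq, hrs, fun hbs => hsn b hKb (h.es _ _ hbs), hrq⟩
        exact hno (htot.trans (ga_symm h h1))
      refine ⟨hqK, hsK, hsn, Or.inr ⟨fun haq => ?_, ?_⟩⟩
      · exact h.en _ _ hpq (h.st _ _ _ (h.ss _ _ hap) haq)
      · exact hbr.tail ⟨hσbr, hb', hrs, fun hbs => hsn b hKb (h.es _ _ hbs),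
          fun hrb => hrn b' hKb' hrb⟩
    · have hρb' := bt_rho h hab hKb'
      have hpb' : σ p b' := bt_side h hρp hρb' hap hσab'
      have hσbr : σ b' r := h.st _ _ _ (h.ss _ _ hpb') hpr
      have hqK : Sup E σ a b q := by
        by_contra hq
        have hbq : E b' q := (sup_unif h hi hq hp hKb' hpb').1 hpq
        have h1 : Ga E σ (b, x) (q, s) :=
          hbr.tail ⟨hσbr, hbq, hrs, fun hbs => hsn b' hKb' (h.es _ _ hbs), hrq⟩
        exact hno (htot.trans (ga_symm h h1))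
      refine ⟨hqK, hsK, hsn, Or.inl ⟨?_, ?_⟩⟩
      · exact h.s3 a p q hρp (h.rt _ _ _ (h.rs _ _ hρp) hrhot.1) hap hnpq
      · exact hbr.tail ⟨hσbr, h.es _ _ hb', hrs, fun hbs => hsn b' hKb' (h.es _ _ hbs),
          fun hrb => hrn b hKb hrb⟩

/-- the case that `x` sees everything of the support of `a, b` on the other side -/
theorem btwB (h : Nd E σ ρ o) {a x b a' : V} (hρ : ρ a x) (hab : ρ a b)
    (hi : Inc E σ a b) (ha' : E a a') (hba' : ¬ E b a') (hKa' : Sup E σ a b a')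
    (hx : ¬ Sup E σ a b x) (hn : ∀ k, Sup E σ a b k → ¬ σ x k → E x k)
    (hno : ¬ Ga E σ (a, x) (b, x)) {t : V × V} (ht : Ga E σ (a, x) t) :
    (σ a t.1 ∧ Sup E σ a b t.1 ∧ ¬ Sup E σ a b t.2 ∧
      (∀ k, Sup E σ a b k → ¬ σ t.2 k → E t.2 k) ∧ Ga E σ (b, x) (b, t.2)) ∨
    (¬ σ a t.1 ∧ Sup E σ a b t.2 ∧ ¬ Sup E σ a b t.1 ∧
      (∀ k, Sup E σ a b k → ¬ σ t.1 k → E t.1 k) ∧ Ga E σ (b, x) (t.1, a')) := by
  have hKa : Sup E σ a b a := ⟨b, Or.inl ReflTransGen.refl⟩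
  have hKb : Sup E σ a b b := ⟨a, Or.inr ReflTransGen.refl⟩
  have hσaa' : ¬ σ a a' := h.en _ _ ha'
  have hρa' := bt_rho h hab hKa'
  induction ht with
  | refl => exact Or.inl ⟨h.sr a, hKa, hx, hn, ReflTransGen.refl⟩
  | @tail s t hs hst ih =>
    obtain ⟨p, r⟩ := s
    obtain ⟨s, q⟩ := t
    obtain ⟨hpr, hps, hrq, hpq, hrs⟩ := hst
    simp only at ih hpr hps hrq hpq hrs ⊢
    have hsq : σ s q := h.q4 p r s q hpr hps hrq
    have htot : Ga E σ (a, x) (s, q) := hs.tail ⟨hpr, hps, hrq, hpq, hrs⟩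
    have hrhot := ga_rho h hρ htot
    have hrhos := ga_rho h hρ hs
    have hnps : ¬ σ p s := h.en _ _ hps
    rcases ih with ⟨hap, hp, hr, hrn, hbr⟩ | ⟨hap, hr, hp, hpn, hbr⟩
    · -- `p, r` on the side of `a`
      right
      have hnas : ¬ σ a s := fun h' => hnps (h.st _ _ _ (h.ss _ _ hap) h')
      have har : σ a r := h.st _ _ _ hap hpr
      have hnrs : ¬ σ r s := fun h' => hnas (h.st _ _ _ har h')
      have hsK : ¬ Sup E σ a b s := fun hk => hrs (hrn s hk hnrs)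
      have hσbr : σ b r := h.st _ _ _ (h.ss _ _ hi.1) har
      have hpb : σ p b := h.st _ _ _ (h.ss _ _ hap) hi.1
      have hsn : ∀ k, Sup E σ a b k → ¬ σ s k → E s k := by
        intro k hk hsk
        have hρk := bt_rho h hab hk
        have hkp : σ p k := by
          refine h.s3 p s k ?_ ?_ hnps hsk
          · exact h.rt _ _ _ (h.rs _ _ hrhos.1) hrhot.1
          · exact h.rt _ _ _ (h.rs _ _ hrhot.1) hρk
        exact h.es _ _ ((sup_unif h hi hsK hp hk hkp).1 hps)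
      have hbs : E b s := (sup_unif h hi hsK hp hKb hpb).1 hps
      have hqK : Sup E σ a b q := by
        by_contra hq
        have hbq : ¬ E b q := fun h' => hpq ((sup_unif h hi hq hp hKb hpb).2 h')
        have h1 : Ga E σ (b, x) (s, q) := hbr.tail ⟨hσbr, hbs, hrq, hbq, hrs⟩
        exact hno (htot.trans (ga_symm h h1))
      have hnra' : ¬ σ r a' := fun h' => hσaa' (h.st _ _ _ har h')
      exact ⟨hnas, hqK, hsK, hsn, hbr.tail ⟨hσbr, hbs, hrn a' hKa' hnra', hba', hrs⟩⟩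
    · -- `p, r` on the other side: here `r` is in the support
      left
      have has : σ a s := h.s3 a p s hrhos.1 (h.rt _ _ _ (h.rs _ _ hrhos.1) hrhot.1) hap hnps
      have haq : σ a q := h.st _ _ _ has hsq
      have hnpq : ¬ σ p q := fun h' => hnps (h.st _ _ _ h' (h.ss _ _ hsq))
      have hqK : ¬ Sup E σ a b q := fun hk => hpq (hpn q hk hnpq)
      have hnra : ¬ σ a r := fun h' => hap (h.st _ _ _ h' (h.ss _ _ hpr))
      have hra' : σ r a' := bt_side h hrhos.2 hρa' hnra hσaa'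
      have hpa' : σ p a' := h.st _ _ _ hpr hra'
      have hnrq : ¬ σ r q := h.en _ _ hrq
      have hqn : ∀ k, Sup E σ a b k → ¬ σ q k → E q k := by
        intro k hk hqk
        have hρk := bt_rho h hab hk
        have hrk : σ r k := by
          refine h.s3 r q k ?_ ?_ hnrq hqk
          · exact h.rt _ _ _ (h.rs _ _ hrhos.2) hrhot.2
          · exact h.rt _ _ _ (h.rs _ _ hrhot.2) hρk
        exact h.es _ _ ((sup_unif h hi hqK hr hk hrk).1 hrq)
      have ha'q : E a' q := (sup_unif h hi hqK hr hKa' hra').1 hrq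
      have hsK : Sup E σ a b s := by
        by_contra hq
        have hbq : ¬ E a' s := fun h' => hrs ((sup_unif h hi hq hr hKa' hra').2 h')
        have h1 : Ga E σ (b, x) (s, q) := hbr.tail ⟨hpa', hps, ha'q, hpq, hbq⟩
        exact hno (htot.trans (ga_symm h h1))
      have hnpb : ¬ σ p b := fun h' => hap (h.ss _ _ (h.st _ _ _ h' (h.ss _ _ hi.1)))
      exact ⟨has, hsK, hqK, hqn,
        hbr.tail ⟨hpa', hpn b hKb hnpb, ha'q, hpq, fun h' => hba' (h.es _ _ h')⟩⟩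

/-- betweenness, if `x` is not in the support of `a, b` -/
theorem btw_core (h : Nd E σ ρ o) {a x b : V} (hix : Inc E σ a x) (hρ : ρ a x) (hab : ρ a b)
    (hi : Inc E σ a b) (hxK : ¬ Sup E σ a b x) : ¬ Ga E σ (a, x) (x, b) := by
  intro hg
  have hno : ¬ Ga E σ (a, x) (b, x) := ga_anti h hix hg
  obtain ⟨hσ, ⟨a', ha', hba'⟩, ⟨b', hb', hab'⟩⟩ := id hi
  have hsep : Ga E σ (a, b) (a', b') := ga_sep hσ ha' hba' hb' hab'
  have hKa' : Sup E σ a b a' := ⟨b', Or.inl hsep⟩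
  have hKb' : Sup E σ a b b' := ⟨a', Or.inr hsep⟩
  have hρa' := bt_rho h hab hKa'
  have hσaa' := h.en _ _ ha'
  by_cases hc : E x a'
  · have hn : ∀ k, Sup E σ a b k → ¬ σ x k → E x k := by
      intro k hk hxk
      have hak : ¬ σ a k := fun h' => hxk (h.st _ _ _ (h.ss _ _ hix.1) h')
      exact h.es _ _ ((sup_unif h hi hxK hKa' hk
        (bt_side h hρa' (bt_rho h hab hk) hσaa' hak)).1 (h.es _ _ hc))
    rcases btwB h hρ hab hi ha' hba' hKa' hxK hn hno hg with h3 | h3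
    · exact hxK h3.2.1
    · exact h3.1 hix.1
  · have hn : ∀ k, Sup E σ a b k → ¬ E x k := by
      intro k hk hxk
      have hak : ¬ σ a k := fun h' => h.en _ _ hxk (h.st _ _ _ (h.ss _ _ hix.1) h')
      exact hc (h.es _ _ ((sup_unif h hi hxK hKa' hk
        (bt_side h hρa' (bt_rho h hab hk) hσaa' hak)).2 (h.es _ _ hxk)))
    exact hxK (btwA h hρ hab hi hb' hKb' hxK hn hno hg).1

end Pool.Agent.J4.H24.CI
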