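import Pool.Agent.J4.H24.CI.Ga

/-!
# Classes of pairs with nested second entries
-/

set_option autoImplicit false

namespace Pool.Agent.J4.H24.CI

open Relation

variable {V : Type} {E σ ρ : V → V → Prop} {o : V → V → Prop}

theorem lemU (h : Nd E σ ρ o) {a x y : V} (hx : Inc E σ a x) (hy : Inc E σ a y)
    (hyx : ∀ z, E y z → E x z) : Ga E σ (a, x) (a, y) := by
  obtain ⟨h1, ⟨β, h2, h3⟩, -⟩ := hx
  obtain ⟨g1, -, η, g2, g3⟩ := hy
  have q1 : Q E σ a x β η := ⟨h1, h2, hyx _ g2, g3, h3⟩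
  have q2 : Q E σ a y β η := ⟨g1, h2, g2, g3, fun h4 => h3 (hyx _ h4)⟩
  exact (ReflTransGen.single (r := fun s t : V × V => Q E σ s.1 s.2 t.1 t.2)
    (a := (a, x)) (b := (β, η)) q1).tail (q_symm h q2)

end Pool.Agent.J4.H24.CI
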