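import Pool.Agent.J4.H24.CI.Ga
import Pool.Agent.J4.H24.CI.Lu
import Pool.Agent.J4.H24.CI.Tr

/-!
# The spanning class of a node
-/

set_option autoImplicit false

namespace Pool.Agent.J4.H24.CI

open Relation

variable {V : Type} {E σ ρ : V → V → Prop} {o : V → V → Prop}

/-- exchanging an incomparable pair -/
theorem un_inc_symm (h : Nd E σ ρ o) {x y : V} (hi : Inc E σ x y) : Inc E σ y x :=
  ⟨h.ss _ _ hi.1, hi.2.2, hi.2.1⟩

/-- If two pairs with the common vertex `a` are in different classes (also up to the order), the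
other vertices are incomparable. -/
theorem un_inc_of_ne (h : Nd E σ ρ o) {a x v : V} (hax : Inc E σ a x) (hav : Inc E σ a v)
    (n1 : ¬ Ga E σ (a, x) (a, v)) : Inc E σ x v := by
  refine ⟨h.st _ _ _ (h.ss _ _ hax.1) hav.1, ?_, ?_⟩
  · by_contra hc
    push Not at hc
    exact n1 (ga_symm h (lemU h hav hax hc))
  · by_contra hc
    push Not at hc
    exact n1 (lemU h hax hav hc)

/-- In this case one of the classes contains the pair of the other vertices. -/
theorem un_ga_third (h : Nd E σ ρ o) {a x v : V} (hax : Inc E σ a x) (hav : Inc E σ a v)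
    (n1 : ¬ Ga E σ (a, x) (a, v)) (n2 : ¬ Ga E σ (a, x) (v, a)) (hs : Sup E σ a x v) :
    Ga E σ (a, x) (v, x) ∨ Ga E σ (a, x) (x, v) := by
  by_contra hcon
  push Not at hcon
  exact tri h hax (un_inc_symm h hav) (un_inc_symm h (un_inc_of_ne h hax hav n1)) n2 n1 hcon.1 hcon.2 hs

/-- Then `x` is not in the support of the class of `a, v`. -/
theorem un_not_sup_third (h : Nd E σ ρ o) {a x v : V} (hax : Inc E σ a x) (hav : Inc E σ a v)
    (n1 : ¬ Ga E σ (a, x) (a, v)) (n2 : ¬ Ga E σ (a, x) (v, a)) (hs : Sup E σ a x v) :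
    ¬ Sup E σ a v x := by
  have h3 := un_ga_third h hax hav n1 n2 hs
  have hxv := un_inc_of_ne h hax hav n1
  refine tri h hav (un_inc_symm h hax) hxv ?_ ?_ ?_ ?_
  · intro hh
    exact n2 (ga_symm h (ga_swap h hh))
  · intro hh
    exact n1 (ga_symm h hh)
  · intro hh
    rcases h3 with h4 | h4
    · exact n2 (h4.trans (ga_symm h (ga_swap h hh)))
    · exact n1 (h4.trans (ga_symm h hh))
  · intro hh
    rcases h3 with h4 | h4
    · exact n1 (h4.trans (ga_symm h hh))
    · exact n2 (h4.trans (ga_symm h (ga_swap h hh)))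

/-- Two spanning pairs of a node are in one class, up to the order. -/
theorem span_unique (h : Nd E σ ρ o) {a x b y : V} (h1 : Span E σ ρ a x) (h2 : Span E σ ρ b y)
    (hab : ρ a b) : Ga E σ (a, x) (b, y) ∨ Ga E σ (a, x) (y, b) := by
  obtain ⟨hax, rax, sax⟩ := h1
  obtain ⟨hby, rby, sby⟩ := h2
  -- a pair `a, v` of the class of `b, y`
  have key : ∀ b' y' v : V, Inc E σ b' y' → ρ a b' → ρ b' y' →
      (∀ w, ρ b' w → Sup E σ b' y' w) → Ga E σ (b', y') (a, v) →
      Ga E σ (a, x) (b', y') ∨ Ga E σ (a, x) (y', b') := by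
    intro b' y' v hi' hab' rby' hs' hg
    have hav : Inc E σ a v := ga_inc h hi' hg
    have hgs : Ga E σ (a, v) (b', y') := ga_symm h hg
    by_contra hcon
    push Not at hcon
    have n1 : ¬ Ga E σ (a, x) (a, v) := fun hh => hcon.1 (hh.trans hgs)
    have n2 : ¬ Ga E σ (a, x) (v, a) := fun hh => hcon.2 (hh.trans (ga_swap h hgs))
    have hrv : ρ a v := h.rt _ _ _ hab' (ga_rho h rby' hg).2
    refine un_not_sup_third h hax hav n1 n2 (sax v hrv) ?_
    obtain ⟨w, hw⟩ := hs' x (h.rt _ _ _ (h.rs _ _ hab') rax)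
    exact ⟨w, hw.imp (fun hh => hgs.trans hh) (fun hh => hgs.trans hh)⟩
  obtain ⟨v, hv | hv⟩ := sby a (h.rs _ _ hab)
  · exact key b y v hby hab rby sby hv
  · refine (key y b v (un_inc_symm h hby) (h.rt _ _ _ hab rby) (h.rs _ _ rby) ?_
      (ga_swap h hv)).symm
    intro w hw
    obtain ⟨u, hu⟩ := sby w (h.rt _ _ _ rby hw)
    exact ⟨u, hu.symm.imp (fun hh => ga_swap h hh) (fun hh => ga_swap h hh)⟩

/-- The class of a spanning pair consists of spanning pairs. -/
theorem span_ga (h : Nd E σ ρ o) {a x b y : V} (h1 : Span E σ ρ a x) (hg : Ga E σ (a, x) (b, y)) :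
    Span E σ ρ b y ∧ Span E σ ρ y b := by
  obtain ⟨hax, rax, sax⟩ := h1
  have hr := ga_rho h rax hg
  have hi := ga_inc h hax hg
  have hs : ∀ w, ρ a w → Sup E σ b y w := by
    intro w hw
    obtain ⟨u, hu⟩ := sax w hw
    exact ⟨u, hu.imp (fun hh => (ga_symm h hg).trans hh) (fun hh => (ga_symm h hg).trans hh)⟩
  have hby : ρ b y := h.rt _ _ _ (h.rs _ _ hr.1) hr.2
  refine ⟨⟨hi, hby, fun w hw => hs w (h.rt _ _ _ hr.1 hw)⟩,
    ⟨un_inc_symm h hi, h.rs _ _ hby, fun w hw => ?_⟩⟩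
  obtain ⟨u, hu⟩ := hs w (h.rt _ _ _ hr.2 hw)
  exact ⟨u, hu.symm.imp (fun hh => ga_swap h hh) (fun hh => ga_swap h hh)⟩

/-- If `a, x` spans and `a, b` does not, then `b, x` spans, and `x` is not in the support of the
class of `a, b`. -/
theorem span_other (h : Nd E σ ρ o) {a x b : V} (h1 : Span E σ ρ a x) (hab : ρ a b)
    (hi : Inc E σ a b) (h2 : ¬ Span E σ ρ a b) :
    Span E σ ρ b x ∧ ¬ Sup E σ a b x := by
  have n1 : ¬ Ga E σ (a, x) (a, b) := fun hh => h2 (span_ga h h1 hh).1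
  have n2 : ¬ Ga E σ (a, x) (b, a) := fun hh => h2 (span_ga h h1 hh).2
  have hs : Sup E σ a x b := h1.2.2 b hab
  refine ⟨?_, un_not_sup_third h h1.1 hi n1 n2 hs⟩
  rcases un_ga_third h h1.1 hi n1 n2 hs with hh | hh
  · exact (span_ga h h1 hh).1
  · exact (span_ga h h1 hh).2

end Pool.Agent.J4.H24.CI
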