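import Pool.Agent.J4.H24.CI.Defs
import Pool.Agent.J4.H24.CI.BtCore
import Pool.Agent.J4.H24.CI.Un

/-!
# Betweenness
-/

set_option autoImplicit false

namespace Pool.Agent.J4.H24.CI

open Relation

variable {V : Type} {E σ ρ : V → V → Prop} {o : V → V → Prop}

theorem btw (h : Nd E σ ρ o) {a x b : V} (h1 : Span E σ ρ a x) (hab : ρ a b)
    (hi : Inc E σ a b) (h2 : ¬ Span E σ ρ a b) : ¬ Ga E σ (a, x) (x, b) :=
  btw_core h h1.1 h1.2.1 hab hi (span_other h h1 hab hi h2).2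

end Pool.Agent.J4.H24.CI
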