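import Mathlib

/-!
# Bipartite graphs with oriented induced matchings, and translates of a convex set: definitions
-/

set_option autoImplicit false

namespace Pool.Agent.J4.H24.CI

/-- Bipartite graphs whose induced matchings can be oriented: there are a set `A` such that every
edge joins `A` to its complement, and an asymmetric relation `o` on the vertices such that `o x y`
or `o y x`, and `o x y` iff `o p q`, whenever `x p` and `y q` form an induced matching and `x`, `y`
are on the same side. Equivalently, no ordered pair `(x, y)` of vertices of one side can be carried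
to `(y, x)` by steps from `(x, y)` to `(p, q)`, with `x p`, `y q` an induced matching. -/
def Oriented {V : Type} (E : V → V → Prop) : Prop :=
  ∃ (A : V → Prop) (o : V → V → Prop), (∀ x y, E x y → (A x ↔ ¬ A y)) ∧
    (∀ x y, o x y → ¬ o y x) ∧
    ∀ x y p q, (A x ↔ A y) → E x p → E y q → ¬ E x q → ¬ E y p →
      (o x y ∨ o y x) ∧ (o x y ↔ o p q)

/-- Intersection graphs of translates of a nonempty convex set `K` in the Euclidean plane (for
example of closed disks of radius one). -/
def IsTranslateGraph {V : Type} (X : SimpleGraph V) : Prop :=
  ∃ (K : Set (EuclideanSpace ℝ (Fin 2))) (z : V → EuclideanSpace ℝ (Fin 2)),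
    Convex ℝ K ∧ K.Nonempty ∧ ∀ u v : V, X.Adj u v ↔
      u ≠ v ∧ ((fun w => z u + w) '' K ∩ (fun w => z v + w) '' K).Nonempty

/-- Unions of two cliques. -/
def CoBipartite {V : Type} (X : SimpleGraph V) : Prop :=
  ∃ A : V → Prop, ∀ u v, u ≠ v → (A u ↔ A v) → X.Adj u v

end Pool.Agent.J4.H24.CI
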