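import Pool.Agent.J4.H24.CI.TDefs

/-!
# CR: edges between the classes of the refinement, for nodes which are not connected or not co-connected
-/

set_option autoImplicit false

namespace Pool.Agent.J4.H24.CI

open Relation

variable {V : Type} {σ ρ : V → V → Prop} {o : V → V → Prop}

namespace CR

theorem rtg_symm {r : V → V → Prop} (hr : ∀ x y, r x y → r y x) {x y : V}
    (h : ReflTransGen r x y) : ReflTransGen r y x := by
  induction h with
  | refl => exact ReflTransGen.refl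
  | tail _ hb ih => exact ReflTransGen.head (hr _ _ hb) ih

theorem reE_symm {E : V → V → Prop} (h : Nd E σ ρ o) {x y : V} (hxy : ReE E ρ x y) :
    ReE E ρ y x :=
  rtg_symm (fun a b hab => ⟨h.rs _ _ hab.1, h.es _ _ hab.2⟩) hxy

theorem reN_symm {E : V → V → Prop} (h : Nd E σ ρ o) {x y : V} (hxy : ReN E σ ρ x y) :
    ReN E σ ρ y x :=
  rtg_symm (fun a b hab => ⟨h.rs _ _ hab.1, fun hs => hab.2.1 (h.ss _ _ hs),
    fun he => hab.2.2 (h.es _ _ he)⟩) hxy

theorem con_move {E : V → V → Prop} (h : Nd E σ ρ o) {x y : V} (hxy : ρ x y)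
    (hc : Con E ρ x) : Con E ρ y := by
  intro w hw
  have h1 : ReE E ρ x y := hc y hxy
  have h2 : ReE E ρ x w := hc w (h.rt _ _ _ hxy hw)
  exact (reE_symm h h1).trans h2

theorem coc_move {E : V → V → Prop} (h : Nd E σ ρ o) {x y : V} (hxy : ρ x y)
    (hc : Coc E σ ρ x) : Coc E σ ρ y := by
  intro w hw
  have h1 : ReN E σ ρ x y := hc y hxy
  have h2 : ReN E σ ρ x w := hc w (h.rt _ _ _ hxy hw)
  exact (reN_symm h h1).trans h2

end CR

theorem cross1 {E : V → V → Prop} (h : Nd E σ ρ o) {x y z : V} (hc : ¬ Con E ρ x) (hy : ρ x y)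
    (hz : ρ x z) (hn : ¬ Nx E σ ρ y z) : ¬ E y z := by
  intro he
  apply hn
  refine Or.inl ⟨fun hcy => hc (CR.con_move h (h.rs _ _ hy) hcy), ?_⟩
  exact ReflTransGen.single ⟨h.rt _ _ _ (h.rs _ _ hy) hz, he⟩

theorem cross2 {E : V → V → Prop} (h : Nd E σ ρ o) {x y z : V} (hc : Con E ρ x)
    (hn : ¬ Coc E σ ρ x) (hy : ρ x y) (hz : ρ x z) (hn : ¬ Nx E σ ρ y z) :
    E y z ↔ ¬ σ y z := by
  rename_i hn'
  refine ⟨h.en _ _, fun hs => ?_⟩
  by_contra he
  apply hn
  refine Or.inr (Or.inl ⟨CR.con_move h hy hc,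
    fun hcy => hn' (CR.coc_move h (h.rs _ _ hy) hcy), ?_⟩)
  exact ReflTransGen.single ⟨h.rt _ _ _ (h.rs _ _ hy) hz, hs, he⟩

end Pool.Agent.J4.H24.CI
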