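import Pool.Agent.J4.H24.CI.Cfd

/-!
# Intersection graphs of translates of a planar convex set, covered by two cliques

Let `C = K - K`. If `x - p` and `y - q` are not in `C` and the other four differences are, the
segments `x p` and `y q` cross. The sign of the cross product of `p - x` and `q - y` is the side of
`y` with respect to the line through `x` and `p`, and the side of `x` with respect to the line
through `y` and `q`, so it depends on `x`, `y` only.
-/

set_option autoImplicit false

namespace Pool.Agent.J4.H24.CI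

open Pointwise

namespace Cv

variable {C : Set (EuclideanSpace ℝ (Fin 2))}

theorem comb (hC : Convex ℝ C) (h0 : (0 : EuclideanSpace ℝ (Fin 2)) ∈ C)
    {u v : EuclideanSpace ℝ (Fin 2)} (hu : u ∈ C) (hv : v ∈ C) {α β : ℝ} (hα : 0 ≤ α)
    (hβ : 0 ≤ β) (h : α + β ≤ 1) : α • u + β • v ∈ C := by
  rcases eq_or_lt_of_le (add_nonneg hα hβ) with h1 | h1
  · have e1 : α = 0 := by linarith
    have e2 : β = 0 := by linarith
    rw [e1, e2, zero_smul, zero_smul, add_zero]
    exact h0
  · have e : α • u + β • v = (α + β) • ((α / (α + β)) • u + (β / (α + β)) • v) := by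
      rw [smul_add, smul_smul, smul_smul, mul_div_cancel₀ _ h1.ne', mul_div_cancel₀ _ h1.ne']
    rw [e]
    refine hC.smul_mem_of_zero_mem h0 ?_ ⟨h1.le, h⟩
    refine hC hu hv (div_nonneg hα h1.le) (div_nonneg hβ h1.le) ?_
    rw [← add_div, div_self h1.ne']

/-- cross product -/
def X2 (a b : EuclideanSpace ℝ (Fin 2)) : ℝ := a 0 * b 1 - a 1 * b 0

theorem parallel {a w : EuclideanSpace ℝ (Fin 2)} (ha : a ≠ 0) (h : X2 a w = 0) :
    ∃ μ : ℝ, w = μ • a := by
  have hN : a 0 ^ 2 + a 1 ^ 2 ≠ 0 := by
    intro h1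
    apply ha
    have h2 : a 0 = 0 := by nlinarith [sq_nonneg (a 0), sq_nonneg (a 1)]
    have h3 : a 1 = 0 := by nlinarith [sq_nonneg (a 0), sq_nonneg (a 1)]
    ext i
    fin_cases i
    · exact h2
    · exact h3
  unfold X2 at h
  refine ⟨(a 0 * w 0 + a 1 * w 1) / (a 0 ^ 2 + a 1 ^ 2), ?_⟩
  ext i
  fin_cases i
  · show w 0 = (a 0 * w 0 + a 1 * w 1) / (a 0 ^ 2 + a 1 ^ 2) * a 0
    field_simp
    linear_combination (-a 1) * h
  · show w 1 = (a 0 * w 0 + a 1 * w 1) / (a 0 ^ 2 + a 1 ^ 2) * a 1
    field_simp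
    linear_combination (a 0) * h

/-- the main step -/
theorem step (hC : Convex ℝ C) (hs : ∀ w ∈ C, -w ∈ C) {a b c : EuclideanSpace ℝ (Fin 2)}
    (ha : a ∉ C) (hb : b ∈ C) (hc : c ∈ C) (hab : a - b ∈ C) (hac : a - c ∈ C)
    (hbc : b - c ∉ C) {l : ℝ} (hl0 : 0 ≤ l) (hl1 : l ≤ 1) (hl : X2 a b = l * X2 a c) : False := by
  have h0 : (0 : EuclideanSpace ℝ (Fin 2)) ∈ C := by
    have := hC hb (hs b hb) (by norm_num : (0 : ℝ) ≤ 1 / 2) (by norm_num : (0 : ℝ) ≤ 1 / 2)
      (by norm_num)
    simpa using this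
  have ha0 : a ≠ 0 := fun h => ha (h ▸ h0)
  have hw : X2 a (b - l • c) = 0 := by
    unfold X2 at hl ⊢
    simp only [PiLp.sub_apply, PiLp.smul_apply, smul_eq_mul]
    linear_combination hl
  obtain ⟨μ, hμ⟩ := parallel ha0 hw
  have hb' : b = l • c + μ • a := by
    rw [← hμ]
    abel
  rcases lt_or_ge μ 0 with h1 | h1
  · -- the segments `0 c` and `a b` cross
    set r : ℝ := 1 / (1 - μ) with hr
    have hm : 0 < 1 - μ := by linarith
    have hr0 : 0 < r := by rw [hr]; positivity
    have hr1 : r * (1 - μ) = 1 := by rw [hr]; field_simp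
    have hr2 : r ≤ 1 := by nlinarith
    have e1 : a = (l * r) • c + r • (a - b) := by
      rw [hb']
      have : (l * r) • c + r • (a - (l • c + μ • a)) = (r * (1 - μ)) • a := by
        module
      rw [this, hr1, one_smul]
    have e2 : b - c = (1 - r) • (-(a - b)) + (1 - l * r) • (-c) := by
      have e3 : (1 - r) • (-(a - b)) + (1 - l * r) • (-c) =
          ((l * r) • c + r • (a - b)) - a + b - c := by
        module
      rw [e3, ← e1]
      abel
    rcases le_total (l * r + r) 1 with h2 | h2
    · exact ha (e1 ▸ comb hC h0 hc hab (mul_nonneg hl0 hr0.le) hr0.le h2)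
    · exact hbc (e2 ▸ comb hC h0 (hs _ hab) (hs _ hc) (by linarith) (by nlinarith) (by linarith))
  · rcases le_total (l + μ) 1 with h2 | h2
    · -- `b` is in the triangle
      have e : b - c = (1 - l - μ) • (-c) + μ • (a - c) := by
        rw [hb']
        module
      exact hbc (e ▸ comb hC h0 (hs _ hc) hac (by linarith) h1 (by linarith))
    · -- the segments `0 b` and `a c` cross
      have hm : 0 < l + μ := by linarith
      set s : ℝ := 1 / (l + μ) with hs'
      have hs0 : 0 < s := by rw [hs']; positivity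
      have hs1 : s * (l + μ) = 1 := by rw [hs']; field_simp
      have hs2 : s ≤ 1 := by nlinarith
      have e1 : a = s • b + (s * l) • (a - c) := by
        rw [hb']
        have : s • (l • c + μ • a) + (s * l) • (a - c) = (s * (l + μ)) • a := by
          module
        rw [this, hs1, one_smul]
      have e2 : b - c = (1 - s) • b + (s * μ) • (a - c) := by
        have e3 : (1 - s) • b + (s * μ) • (a - c) =
            b - (s • b + (s * l) • (a - c)) + (s * (l + μ)) • (a - c) := by
          module
        rw [e3, ← e1, hs1, one_smul]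
        abel
      rcases le_total (s + s * l) 1 with h3 | h3
      · exact ha (e1 ▸ comb hC h0 hb hac hs0.le (mul_nonneg hs0.le hl0) h3)
      · exact hbc (e2 ▸ comb hC h0 hb hac (by linarith) (mul_nonneg hs0.le h1) (by nlinarith))

/-- `b` and `c` are on different sides of the line through `a` -/
theorem crossC (hC : Convex ℝ C) (hs : ∀ w ∈ C, -w ∈ C) {a b c : EuclideanSpace ℝ (Fin 2)}
    (ha : a ∉ C) (hb : b ∈ C) (hc : c ∈ C) (hab : a - b ∈ C) (hac : a - c ∈ C)
    (hbc : b - c ∉ C) : X2 a b * X2 a c < 0 := by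
  by_contra hcon
  have h := not_lt.1 hcon
  have hcb : c - b ∉ C := fun k => hbc (by simpa using hs _ k)
  have aux : ∀ s t : ℝ, 0 ≤ s * t → |s| ≤ |t| → ∃ l : ℝ, 0 ≤ l ∧ l ≤ 1 ∧ s = l * t := by
    intro s t hst habs
    by_cases ht : t = 0
    · subst ht
      have : s = 0 := by simpa using habs
      exact ⟨0, le_rfl, zero_le_one, by rw [this]; ring⟩
    · refine ⟨s / t, ?_, ?_, by field_simp⟩
      · have : s / t = s * t / t ^ 2 := by field_simp
        rw [this]
        positivity
      · rw [div_le_one_iff]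
        rcases lt_or_gt_of_ne ht with k | k
        · right; right
          refine ⟨k, ?_⟩
          have hs0 : s ≤ 0 := by
            by_contra hs0
            nlinarith
          rw [abs_of_nonpos hs0, abs_of_neg k] at habs
          linarith
        · left
          refine ⟨k, ?_⟩
          have hs0 : 0 ≤ s := by
            by_contra hs0
            nlinarith
          rwa [abs_of_nonneg hs0, abs_of_pos k] at habs
  rcases le_total |X2 a b| |X2 a c| with k | k
  · obtain ⟨l, h1, h2, h3⟩ := aux _ _ h k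
    exact step hC hs ha hb hc hab hac hbc h1 h2 h3
  · obtain ⟨l, h1, h2, h3⟩ := aux _ _ (by rw [mul_comm]; exact h) k
    exact step hC hs ha hc hb hac hab hcb h1 h2 h3

end Cv

open Cv

/-- the complement of an intersection graph of translates of a convex set covered by two cliques
has oriented induced matchings -/
theorem translate_oriented {V : Type} {X : SimpleGraph V} (h1 : CoBipartite X)
    (h2 : IsTranslateGraph X) : Oriented Xᶜ.Adj := by
  obtain ⟨A, hA⟩ := h1
  obtain ⟨K, z, hK, ⟨k0, hk0⟩, hz⟩ := h2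
  have hC : Convex ℝ (K - K) := hK.sub hK
  have hs : ∀ w ∈ K - K, -w ∈ K - K := by
    rintro w ⟨k, hk, l, hl, rfl⟩
    exact ⟨l, hl, k, hk, by simp⟩
  have h0 : (0 : EuclideanSpace ℝ (Fin 2)) ∈ K - K := ⟨k0, hk0, k0, hk0, by simp⟩
  have hz' : ∀ u v : V, X.Adj u v ↔ u ≠ v ∧ z u - z v ∈ K - K := by
    intro u v
    rw [hz]
    refine and_congr_right fun _ => ?_
    constructor
    · rintro ⟨w, ⟨k, hk, e1⟩, l, hl, e2⟩
      refine ⟨l, hl, k, hk, ?_⟩
      have e3 : z u + k = z v + l := e1.trans e2.symm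
      show l - k = z u - z v
      rw [sub_eq_sub_iff_add_eq_add, add_comm l, ← e3]
    · rintro ⟨l, hl, k, hk, e1⟩
      refine ⟨z u + k, ⟨k, hk, rfl⟩, l, hl, ?_⟩
      have e2 : l - k = z u - z v := e1
      show z v + l = z u + k
      rw [sub_eq_sub_iff_add_eq_add] at e2
      rw [← e2, add_comm]
  have hE : ∀ u v, Xᶜ.Adj u v → z u - z v ∉ K - K := by
    intro u v huv
    rw [SimpleGraph.compl_adj, hz'] at huv
    exact fun k => huv.2 ⟨huv.1, k⟩
  have hN : ∀ u v, ¬ Xᶜ.Adj u v → z u - z v ∈ K - K := by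
    intro u v huv
    rw [SimpleGraph.compl_adj, hz'] at huv
    by_cases he : u = v
    · subst he
      rw [sub_self]
      exact h0
    · by_contra hcon
      exact huv ⟨he, fun h => hcon h.2⟩
  have hop : ∀ u v, Xᶜ.Adj u v → (A u ↔ ¬ A v) := by
    intro u v huv
    by_contra hcon
    have h1 : A u ↔ A v := by tauto
    rw [SimpleGraph.compl_adj] at huv
    exact huv.2 (hA u v huv.1 h1)
  have hS : ∀ u v, (A u ↔ A v) → z u - z v ∈ K - K := by
    intro u v huv
    apply hN
    intro h
    have := hop u v h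
    tauto
  -- induced matchings
  let M : V → V → V → V → Prop := fun x y p q =>
    (A x ↔ A y) ∧ Xᶜ.Adj x p ∧ Xᶜ.Adj y q ∧ ¬ Xᶜ.Adj x q ∧ ¬ Xᶜ.Adj y p
  have hsw : ∀ {x y p q}, M x y p q → M y x q p := fun h =>
    ⟨h.1.symm, h.2.2.1, h.2.1, h.2.2.2.2, h.2.2.2.1⟩
  have hpq : ∀ {x y p q}, M x y p q → (A p ↔ A q) := by
    rintro x y p q ⟨k0, k1, k2, -, -⟩
    have e1 := hop _ _ k1
    have e2 := hop _ _ k2
    tauto
  have hdu : ∀ {x y p q}, M x y p q → M p q x y := fun h =>
    ⟨hpq h, h.2.1.symm, h.2.2.1.symm, fun k => h.2.2.2.2 k.symm, fun k => h.2.2.2.1 k.symm⟩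
  let Cp : V → V → V → V → ℝ := fun x y p q => X2 (z p - z x) (z q - z y)
  have hCp : ∀ x y p q, Cp x y p q = X2 (z p - z x) (z q - z y) := fun _ _ _ _ => rfl
  -- the sign is that of the side of `y`
  have side : ∀ {x y p q}, M x y p q →
      ((0 < Cp x y p q ↔ X2 (z p - z x) (z y - z x) < 0) ∧ Cp x y p q ≠ 0) := by
    intro x y p q hM
    obtain ⟨k0, k1, k2, k3, k4⟩ := id hM
    have hc := crossC hC hs (a := z p - z x) (b := z y - z x) (c := z q - z x)
      (fun k => hE _ _ k1 (by simpa using hs _ k)) (hS _ _ k0.symm)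
      (by simpa using hs _ (hN _ _ k3))
      (by
        have := hs _ (hN _ _ k4)
        simpa using this)
      (by
        have := hS _ _ (hpq hM)
        simpa using this)
      (by
        have := hE _ _ k2
        simpa using this)
    have e : Cp x y p q = X2 (z p - z x) (z q - z x) - X2 (z p - z x) (z y - z x) := by
      rw [hCp]
      unfold X2
      simp only [PiLp.sub_apply]
      ring
    rw [e]
    set s := X2 (z p - z x) (z y - z x)
    set t := X2 (z p - z x) (z q - z x)
    refine ⟨⟨fun h => ?_, fun h => ?_⟩, fun h => ?_⟩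
    · by_contra hs
      have hs' := not_lt.1 hs
      nlinarith
    · have : 0 < t := by
        by_contra ht
        nlinarith
      linarith
    · have : t = s := by linarith
      rw [this] at hc
      nlinarith [mul_self_nonneg s]
  have anti : ∀ x y p q, Cp y x q p = - Cp x y p q := by
    intro x y p q
    rw [hCp, hCp]
    unfold X2
    ring
  have dual : ∀ x y p q, Cp p q x y = Cp x y p q := by
    intro x y p q
    rw [hCp, hCp]
    unfold X2
    simp only [PiLp.sub_apply]
    ring
  -- the ends do not matter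
  have indep2 : ∀ {x y p q q'}, M x y p q → M x y p q' →
      (0 < Cp x y p q ↔ 0 < Cp x y p q') := fun h h' =>
    (side h).1.trans (side h').1.symm
  have neg_iff : ∀ {x y p q}, M x y p q → (0 < Cp y x q p ↔ ¬ 0 < Cp x y p q) := by
    intro x y p q h
    rw [anti]
    have := (side h).2
    constructor
    · intro k
      linarith
    · intro k
      rcases lt_or_gt_of_ne this with k' | k'
      · linarith
      · exact absurd k' k
  have indep1 : ∀ {x y p p' q}, M x y p q → M x y p' q →
      (0 < Cp x y p q ↔ 0 < Cp x y p' q) := by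
    intro x y p p' q h h'
    have e1 := neg_iff h
    have e2 := neg_iff h'
    have e3 := indep2 (hsw h) (hsw h')
    tauto
  have indep : ∀ {x y p q p' q'}, M x y p q → M x y p' q' →
      (0 < Cp x y p q ↔ 0 < Cp x y p' q') := by
    intro x y p q p' q' h h'
    have hm : M x y p q' := ⟨h.1, h.2.1, h'.2.2.1, h'.2.2.2.1, h.2.2.2.2⟩
    exact (indep2 h hm).trans (indep1 hm h')
  refine ⟨A, fun x y => ∃ p q, M x y p q ∧ 0 < Cp x y p q, hop, ?_, ?_⟩
  · rintro x y ⟨p, q, h1, h2⟩ ⟨q', p', h3, h4⟩
    have h5 := hsw h3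
    have h6 := (indep h1 h5).1 h2
    exact (neg_iff h5).1 h4 h6
  · intro x y p q k0 k1 k2 k3 k4
    have hM : M x y p q := ⟨k0, k1, k2, k3, k4⟩
    constructor
    · by_cases h : 0 < Cp x y p q
      · exact Or.inl ⟨p, q, hM, h⟩
      · exact Or.inr ⟨q, p, hsw hM, (neg_iff hM).2 h⟩
    · constructor
      · rintro ⟨p', q', h1, h2⟩
        refine ⟨x, y, hdu hM, ?_⟩
        rw [dual]
        exact (indep h1 hM).1 h2
      · rintro ⟨x', y', h1, h2⟩
        refine ⟨p, q, hM, ?_⟩
        have h3 := (indep h1 (hdu hM)).1 h2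
        rw [dual] at h3
        exact h3

end Pool.Agent.J4.H24.CI
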