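import Pool.Agent.J4.H24.CI.Ga
import Pool.Agent.J4.H24.CI.Lu
import Pool.Agent.J4.H24.CI.Un
import Pool.Agent.J4.H24.CI.Bt
import Pool.Agent.J4.H24.CI.Tr

/-!
# Project CF (helper24), piece LT (helper89): the linear order of the blocks given by a spanning pair
-/

set_option autoImplicit false

namespace Pool.Agent.J4.H24.CI

open Relation

variable {V : Type} {E σ ρ : V → V → Prop} {o : V → V → Prop}

/-- the order given by a spanning pair -/
def L (E σ : V → V → Prop) (a b z w : V) : Prop :=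
  ((∀ t, E z t → E w t) ∧ ¬ ∀ t, E w t → E z t) ∨ Ga E σ (a, b) (z, w)

theorem Lt.not_inc {z v : V} (hs : σ z v) (hn : ¬ Inc E σ z v) :
    (∀ t, E z t → E v t) ∨ ∀ t, E v t → E z t := by
  by_contra hc
  push Not at hc
  obtain ⟨⟨p, hp1, hp2⟩, ⟨q, hq1, hq2⟩⟩ := hc
  exact hn ⟨hs, ⟨p, hp1, hp2⟩, ⟨q, hq1, hq2⟩⟩

theorem L_trans (h : Nd E σ ρ o) {a b z w v : V} (hab : Span E σ ρ a b) (hz : ρ a z)
    (hw : ρ a w) (hv : ρ a v) (h1 : σ z w) (h2 : σ w v) (hL1 : L E σ a b z w)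
    (hL2 : L E σ a b w v) : L E σ a b z v := by
  have hzv : σ z v := h.st _ _ _ h1 h2
  rcases hL1 with ⟨c1, d1⟩ | g1 <;> rcases hL2 with ⟨c2, d2⟩ | g2
  · exact Or.inl ⟨fun t ht => c2 t (c1 t ht), fun hc => d1 fun t ht => hc t (c2 t ht)⟩
  · -- `N(z) ⊂ N(w)`, and `w, v` in the class
    have hs := (span_ga h hab g2).1
    have hwv : Inc E σ w v := hs.1
    obtain ⟨-, ⟨p, hp1, hp2⟩, ⟨q, hq1, hq2⟩⟩ := id hwv
    by_cases hi : Inc E σ z v
    · right
      have hvw : Inc E σ v w := ⟨h.ss _ _ h2, ⟨q, hq1, hq2⟩, ⟨p, hp1, hp2⟩⟩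
      have hvz : Inc E σ v z := ⟨h.ss _ _ hzv, hi.2.2, hi.2.1⟩
      exact g2.trans (ga_swap h (lemU h hvw hvz c1))
    · left
      have hnot : ¬ ∀ t, E v t → E z t := fun hc => hq2 (c1 q (hc q hq1))
      rcases Lt.not_inc hzv hi with hc | hc
      · exact ⟨hc, hnot⟩
      · exact absurd hc hnot
  · -- `z, w` in the class, `N(w) ⊂ N(v)`
    have hs := (span_ga h hab g1).1
    have hzw : Inc E σ z w := hs.1
    obtain ⟨-, ⟨p, hp1, hp2⟩, ⟨q, hq1, hq2⟩⟩ := id hzw
    by_cases hi : Inc E σ z v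
    · right
      exact g1.trans (ga_symm h (lemU h hi hzw c2))
    · left
      have hnot : ¬ ∀ t, E v t → E z t := fun hc => hq2 (hc q (c2 q hq1))
      rcases Lt.not_inc hzv hi with hc | hc
      · exact ⟨hc, hnot⟩
      · exact absurd hc hnot
  · have s1 := (span_ga h hab g1).1
    have s2 := (span_ga h hab g2).1
    have g3 : Ga E σ (z, w) (w, v) := (ga_symm h g1).trans g2
    by_cases hi : Inc E σ z v
    · have hρ : ρ z v := h.rt _ _ _ (h.rs _ _ hz) hv
      have hs : Span E σ ρ z v := by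
        by_contra hc
        exact btw h s1 hρ hi hc g3
      rcases span_unique h hab hs hz with g | g
      · exact Or.inr g
      · exfalso
        -- a cycle of length three in one class: the triangle lemma
        have i1 : Inc E σ z w := s1.1
        have i2 : Inc E σ w v := s2.1
        have gv : Ga E σ (w, v) (v, z) := (ga_symm h g2).trans g
        have gz : Ga E σ (w, v) (z, w) := (ga_symm h g2).trans g1
        exact tri' h i2 i1 hi (ga_anti h i2 gz) (ga_anti h i2 gv) ⟨w, Or.inl gz⟩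
    · have hnot : ¬ ∀ t, E v t → E z t := by
        intro hc
        obtain ⟨-, -, ⟨η, hη1, hη2⟩⟩ := s1.1
        obtain ⟨-, -, ⟨ζ, hζ1, hζ2⟩⟩ := s2.1
        have k1 : Ga E σ (z, w) (ζ, η) :=
          ReflTransGen.single ⟨h1, hc ζ hζ1, hη1, hη2, hζ2⟩
        have k2 : Ga E σ (w, v) (η, ζ) :=
          ReflTransGen.single ⟨h2, hη1, hζ1, hζ2, fun hh => hη2 (hc η hh)⟩
        exact ga_anti h s1.1 k1 (g3.trans k2)
      rcases Lt.not_inc hzv hi with hc | hc
      · exact Or.inl ⟨hc, hnot⟩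
      · exact absurd hc hnot

theorem L_irrefl (h : Nd E σ ρ o) {a b z : V} (hab : Span E σ ρ a b) : ¬ L E σ a b z z := by
  rintro (⟨c, d⟩ | g)
  · exact d c
  · rcases (ga_ord h hab.1 g).2 with k | k <;> exact h.as _ _ k k

theorem L_total (h : Nd E σ ρ o) {a b z w : V} (hab : Span E σ ρ a b) (hz : ρ a z) (hw : ρ a w)
    (hzw : σ z w) : L E σ a b z w ∨ L E σ a b w z ∨ R E σ ρ z w := by
  have hρ : ρ z w := h.rt _ _ _ (h.rs _ _ hz) hw
  by_cases hi : Inc E σ z w
  · by_cases hs : Span E σ ρ z w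
    · rcases span_unique h hab hs hz with g | g
      · exact Or.inl (Or.inr g)
      · exact Or.inr (Or.inl (Or.inr g))
    · exact Or.inr (Or.inr ⟨hρ, hzw, Or.inr ⟨hi, hs⟩⟩)
  · by_cases c1 : ∀ t, E z t → E w t
    · by_cases c2 : ∀ t, E w t → E z t
      · exact Or.inr (Or.inr ⟨hρ, hzw, Or.inl fun t => ⟨c1 t, c2 t⟩⟩)
      · exact Or.inl (Or.inl ⟨c1, c2⟩)
    · rcases Lt.not_inc hzw hi with c2 | c2
      · exact absurd c2 c1
      · exact Or.inr (Or.inl (Or.inl ⟨c2, c1⟩))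

end Pool.Agent.J4.H24.CI
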