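import Pool.Agent.J4.H24.CI.Ia
import Pool.Agent.J4.H24.CI.Ib

/-!
# Invariance of the refinement
-/

set_option autoImplicit false

namespace Pool.Agent.J4.H24.CI

open Relation Pool.Agent.W185.SRG Pool.Agent.J4.H77.CG

variable {V : Type} [Fintype V] {G : SimpleGraph V} {N : ℕ} {σ ρ : V → V → Prop}

theorem iv_Nx (hN : 5 ≤ N) (hσ : Iv G N σ) (hi : Iv G N ρ) : Iv G N (Nx G.Adj σ ρ) := by
  intro u u' v v' hT h
  have t1 : T G G N [(u, u')] := hT.mono fun e he => by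
    simp only [List.mem_cons, List.not_mem_nil, or_false] at he ⊢
    tauto
  have t2 : T G G N [(u', u)] := t1.symm
  have c1 : Con G.Adj ρ u ↔ Con G.Adj ρ u' := ⟨con_inv hN hi t1, con_inv hN hi t2⟩
  have c2 : Coc G.Adj σ ρ u ↔ Coc G.Adj σ ρ u' := ⟨coc_inv hN hσ hi t1, coc_inv hN hσ hi t2⟩
  have c3 : Str G.Adj σ ρ u ↔ Str G.Adj σ ρ u' := ⟨str_inv hN hσ hi t1, str_inv hN hσ hi t2⟩
  have c4 := iv_reE hN hi _ _ _ _ hT
  have c5 := iv_reN hN hσ hi _ _ _ _ hT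
  have c6 := iv_N3 hN hσ hi _ _ _ _ hT
  have c7 : N4 G.Adj σ ρ u v → N4 G.Adj σ ρ u' v' := fun h =>
    h.imp (iv_S hN hσ hi _ _ _ _ hT) (iv_Lk hN hσ hi _ _ _ _ hT)
  unfold Nx at h ⊢
  rw [← c1, ← c2, ← c3]
  tauto

end Pool.Agent.J4.H24.CI
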