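import Pool.Agent.J4.H24.CI.TDefs

/-!
# The image of an invariant relation
-/

set_option autoImplicit false

namespace Pool.Agent.J4.H24.CI

open Relation Pool.Agent.W185.SRG Pool.Agent.J4.H77.CG

variable {V W : Type} [Fintype V] [Fintype W] {G : SimpleGraph V} {H : SimpleGraph W} {N : ℕ}
  {σ ρ η : V → V → Prop} {o : V → V → Prop}

theorem im_iff (hN : 5 ≤ N) (hi : Iv G N ρ) {y z : V} {y' z' : W}
    (hT : T G H N [(y, y'), (z, z')]) : ρ y z ↔ Im G H N ρ y' z' := by
  constructor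
  · intro h
    exact ⟨y, z, hT, h⟩
  · rintro ⟨a, b, hab, h⟩
    have h1 : T G G N [(a, y), (b, z)] := by
      have h2 := T.trans (G := G) (H := H) (K := G) (N := N) [(a, y', y), (b, z', z)]
        (by simpa using hab) (by simpa using hT.symm)
      simpa using h2
    exact hi a y b z h1 h

theorem im_equiv (hN : 5 ≤ N) (hi : Iv G N ρ) (he : Equivalence ρ) {v : V} {v' : W}
    (hT : T G H N [(v, v')]) : Equivalence (Im G H N ρ) := by
  refine ⟨fun y' => ?_, fun {y' z'} h => ?_, fun {y' z' w'} h1 h2 => ?_⟩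
  · obtain ⟨y, hy⟩ := T_back hT (by simp; omega) (by simp) y'
    exact ⟨y, y, hy.mono (by simp), he.refl y⟩
  · obtain ⟨y, z, h1, h2⟩ := h
    exact ⟨z, y, h1.mono (by simp), he.symm h2⟩
  · obtain ⟨y, z, h3, h4⟩ := h1
    obtain ⟨w, hw⟩ := T_back h3 (by simp; omega) (by simp) w'
    have h5 : T G H N [(z, z'), (w, w')] := hw.mono (by simp)
    have h6 : ρ z w := (im_iff hN hi h5).2 h2
    exact ⟨y, w, hw.mono (by simp), he.trans h4 h6⟩

end Pool.Agent.J4.H24.CI
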