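import Pool.Agent.J4.H24.CI.TDefs

/-!
# Gluing when the different classes are joined in a constant way
-/

set_option autoImplicit false

namespace Pool.Agent.J4.H24.CI

open Relation Pool.Agent.W185.SRG Pool.Agent.J4.H77.CG

variable {V W : Type} [Fintype V] [Fintype W] {G : SimpleGraph V} {H : SimpleGraph W} {N : ℕ}
  {σ ρ η : V → V → Prop} {o : V → V → Prop}

private theorem lc_iff (hi : Iv G N ρ) {y z : V} {y' z' : W}
    (hT : T G H N [(y, y'), (z, z')]) : ρ y z ↔ Im G H N ρ y' z' := by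
  constructor
  · intro h
    exact ⟨y, z, hT, h⟩
  · rintro ⟨y1, z1, hT1, h1⟩
    have h2 : T H G N [(y', y), (z', z)] := hT.symm
    have h3 := T.trans (G := G) (H := H) (K := G) [(y1, y', y), (z1, z', z)] hT1 h2
    exact hi _ _ _ _ h3 h1

private theorem lc_equiv (hN : 5 ≤ N) (hi : Iv G N ρ) (he : Equivalence ρ) {v : V} {v' : W}
    (hT : T G H N [(v, v')]) : Equivalence (Im G H N ρ) := by
  refine ⟨?_, ?_, ?_⟩
  · intro x'
    obtain ⟨x, hx⟩ := T_back hT (by simp; omega) (by simp) x'
    refine ⟨x, x, hx.mono ?_, he.refl x⟩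
    intro e
    simp
    tauto
  · rintro x' y' ⟨x, y, h1, h2⟩
    refine ⟨y, x, h1.mono ?_, he.symm h2⟩
    intro e
    simp
    tauto
  · intro x' y' z' h1 h2
    obtain ⟨x, hx⟩ := T_back hT (by simp; omega) (by simp) x'
    obtain ⟨y, hy⟩ := T_back hx (by simp; omega) (by simp) y'
    obtain ⟨z, hz⟩ := T_back hy (by simp; omega) (by simp) z'
    have e1 : T G H N [(x, x'), (y, y')] := hz.mono (by intro e; simp; tauto)
    have e2 : T G H N [(y, y'), (z, z')] := hz.mono (by intro e; simp; tauto)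
    have e3 : T G H N [(x, x'), (z, z')] := hz.mono (by intro e; simp; tauto)
    rw [← lc_iff hi e3]
    exact he.trans ((lc_iff hi e1).2 h1) ((lc_iff hi e2).2 h2)

/-- Gluing when different classes of `η` in a node of `ρ` are joined in a constant way. -/
theorem lift_const (hN : 5 ≤ N) (eσ : Equivalence σ) (eρ : Equivalence ρ) (eη : Equivalence η)
    (hle : ∀ x y, η x y → ρ x y) (iσ : Iv G N σ) (iρ : Iv G N ρ) (iη : Iv G N η)
    (s3 : ∀ x y z, ρ x y → ρ y z → ¬ σ x y → ¬ σ y z → σ x z)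
    {y : V} {y' : W} (hT : T G H N [(y, y')]) (c : Prop)
    (hc : ∀ u v, ρ y u → ρ y v → ¬ η u v → (G.Adj u v ↔ (c ∧ ¬ σ u v)))
    (hI : ∀ z z', ρ y z → T G H N [(z, z'), (y, y')] →
      ∃ f, Is G H σ η (Im G H N σ) (Im G H N η) z z' f) :
    ∃ f, Is G H σ ρ (Im G H N σ) (Im G H N ρ) y y' f := by
  have fσ := lc_equiv hN iσ eσ hT
  have fρ := lc_equiv hN iρ eρ hT
  have fη := lc_equiv hN iη eη hT
  have hle' : ∀ a b, Im G H N η a b → Im G H N ρ a b := by
    rintro a b ⟨a1, b1, h1, h2⟩
    exact ⟨a1, b1, h1, hle _ _ h2⟩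
  have s3' : ∀ a b d, Im G H N ρ a b → Im G H N ρ b d → ¬ Im G H N σ a b → ¬ Im G H N σ b d →
      Im G H N σ a d := by
    intro x' y' z' h1 h2 h3 h4
    obtain ⟨x, hx⟩ := T_back hT (by simp; omega) (by simp) x'
    obtain ⟨y, hy⟩ := T_back hx (by simp; omega) (by simp) y'
    obtain ⟨z, hz⟩ := T_back hy (by simp; omega) (by simp) z'
    have e1 : T G H N [(x, x'), (y, y')] := hz.mono (by intro e; simp; tauto)
    have e2 : T G H N [(y, y'), (z, z')] := hz.mono (by intro e; simp; tauto)
    have e3 : T G H N [(x, x'), (z, z')] := hz.mono (by intro e; simp; tauto)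
    rw [← lc_iff iσ e1] at h3
    rw [← lc_iff iσ e2] at h4
    rw [← lc_iff iρ e1] at h1
    rw [← lc_iff iρ e2] at h2
    rw [← lc_iff iσ e3]
    exact s3 _ _ _ h1 h2 h3 h4
  -- sides of two vertices from their sides with respect to a third
  have sd : ∀ a u v, ρ a u → ρ a v → (σ u v ↔ (σ a u ↔ σ a v)) := by
    intro a u v hu hv
    constructor
    · intro h
      exact ⟨fun h' => eσ.trans h' h, fun h' => eσ.trans h' (eσ.symm h)⟩
    · intro h
      by_cases h' : σ a u
      · exact eσ.trans (eσ.symm h') (h.1 h')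
      · exact s3 u a v (eρ.symm hu) hv (fun h5 => h' (eσ.symm h5)) (fun h5 => h' (h.2 h5))
  have sd' : ∀ a u v, Im G H N ρ a u → Im G H N ρ a v →
      (Im G H N σ u v ↔ (Im G H N σ a u ↔ Im G H N σ a v)) := by
    intro a u v hu hv
    constructor
    · intro h
      exact ⟨fun h' => fσ.trans h' h, fun h' => fσ.trans h' (fσ.symm h)⟩
    · intro h
      by_cases h' : Im G H N σ a u
      · exact fσ.trans (fσ.symm h') (h.1 h')
      · exact s3' u a v (fρ.symm hu) hv (fun h5 => h' (fσ.symm h5)) (fun h5 => h' (h.2 h5))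
  obtain ⟨β, hβ⟩ := hT.step (by simp; omega) (by simp)
  obtain ⟨f, hf1, hf2⟩ := exists_matching η (Im G H N η) eη fη {z | ρ y z}
    {z' | Im G H N ρ y' z'} (fun a b ha hb => eρ.trans ha (hle _ _ hb))
    (fun a b ha hb => fρ.trans ha (hle' _ _ hb)) β
    (fun x => lc_iff iρ ((hβ x).mono (by intro e; simp; tauto)))
    (fun x x' f => Set.BijOn f {z | η x z} {z' | Im G H N η x' z'} ∧
      (∀ u v, η x u → η x v → (G.Adj u v ↔ H.Adj (f u) (f v))) ∧
      ∀ u, η x u → (σ y u ↔ Im G H N σ y' (f u)))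
    (fun x x' f h => h.1)
    (by
      rintro a b a' b' f hab hab' ⟨h1, h2, h3⟩
      have e1 : {z | η b z} = {z | η a z} := by
        ext z
        exact ⟨fun h => eη.trans hab h, fun h => eη.trans (eη.symm hab) h⟩
      have e2 : {z | Im G H N η b' z} = {z | Im G H N η a' z} := by
        ext z
        exact ⟨fun h => fη.trans hab' h, fun h => fη.trans (fη.symm hab') h⟩
      refine ⟨?_, ?_, ?_⟩
      · rw [e1, e2]
        exact h1
      · intro u v hu hv
        exact h2 u v (eη.trans hab hu) (eη.trans hab hv)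
      · intro u hu
        exact h3 u (eη.trans hab hu))
    (by
      rintro a a' f g hfg ⟨h1, h2, h3⟩
      refine ⟨h1.congr fun z hz => hfg z hz, ?_, ?_⟩
      · intro u v hu hv
        rw [← hfg u hu, ← hfg v hv]
        exact h2 u v hu hv
      · intro u hu
        rw [← hfg u hu]
        exact h3 u hu)
    (by
      intro x hx
      have hx' : ρ y x := hx
      obtain ⟨f, h1, h2, h3⟩ := hI x (β x) hx' (hβ x)
      refine ⟨f, h1, h2, ?_⟩
      intro u hu
      have e1 : T G H N [(x, β x), (y, y')] := (hβ x).mono (by intro e; simp)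
      have e2 : T G H N [(y, y'), (x, β x)] := (hβ x).mono (by intro e; simp; tauto)
      have e3 := lc_iff iσ e1
      have e4 := h3 u hu
      have e5 : Im G H N η (β x) (f u) := h1.mapsTo hu
      have e6 : Im G H N ρ (β x) y' := fρ.symm ((lc_iff iρ e2).1 hx')
      have e7 := sd x y u (eρ.symm hx') (hle _ _ hu)
      have e8 := sd' (β x) y' (f u) e6 (hle' _ _ e5)
      rw [e7, e8, e3, e4])
  refine ⟨f, hf1, ?_, ?_⟩
  · intro u v hu hv
    have hu' : Im G H N ρ y' (f u) := hf1.mapsTo hu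
    have hv' : Im G H N ρ y' (f v) := hf1.mapsTo hv
    have gu := hf2 u hu
    have gv := hf2 v hv
    by_cases huv : η u v
    · exact gu.2.1 u v (eη.refl u) huv
    · have huv' : ¬ Im G H N η (f u) (f v) := by
        intro h5
        obtain ⟨w, hw, hw2⟩ := gu.1.surjOn h5
        have hw' : η u w := hw
        have h6 : w = v := hf1.injOn (eρ.trans hu (hle _ _ hw')) hv hw2
        exact huv (h6 ▸ hw')
      obtain ⟨a, ha⟩ := T_back hT (by simp; omega) (by simp) (f u)
      obtain ⟨b, hb⟩ := T_back ha (by simp; omega) (by simp) (f v)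
      have e1 : T G H N [(y, y'), (a, f u)] := hb.mono (by intro e; simp; tauto)
      have e2 : T G H N [(y, y'), (b, f v)] := hb.mono (by intro e; simp; tauto)
      have e3 : T G H N [(a, f u), (b, f v)] := hb.mono (by intro e; simp; tauto)
      have k1 := hc a b ((lc_iff iρ e1).2 hu') ((lc_iff iρ e2).2 hv')
        (fun h5 => huv' ((lc_iff iη e3).1 h5))
      have k2 : G.Adj a b ↔ H.Adj (f u) (f v) :=
        e3.adj_iff (by omega) (a := (a, f u)) (b := (b, f v)) (by simp) (by simp)
      have k3 := lc_iff iσ e3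
      have k4 := hc u v hu hv huv
      have k5 := sd y u v hu hv
      have k6 := sd' y' (f u) (f v) hu' hv'
      have k7 := gu.2.2 u (eη.refl u)
      have k8 := gv.2.2 v (eη.refl v)
      rw [← k2, k1, k4, k3, k6, k5, k7, k8]
  · intro u hu
    exact (hf2 u hu).2.2 u (eη.refl u)

end Pool.Agent.J4.H24.CI
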