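import Pool.Agent.J4.H24.CI.NxF
import Pool.Agent.J4.H24.CI.D3
import Pool.Agent.J4.H24.CI.D4
import Pool.Agent.J4.H24.CI.Ic
import Pool.Agent.J4.H24.CI.Im
import Pool.Agent.J4.H24.CI.Lc
import Pool.Agent.J4.H24.CI.Ld
import Pool.Agent.J4.H24.CI.Ba
import Pool.Agent.J4.H24.CI.Cr
import Pool.Agent.J4.H24.CI.N0
import Pool.Agent.J4.H24.CI.Wc

/-!
# Cross-free bipartite graphs: the induction
-/

set_option autoImplicit false
set_option linter.unusedSectionVars false

namespace Pool.Agent.J4.H24.CI

open Relation Pool.Agent.W185.SRG Pool.Agent.J4.H77.CG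

variable {V W : Type} [Fintype V] [Fintype W] {G : SimpleGraph V} {H : SimpleGraph W} {N : ℕ}
  {σ : V → V → Prop} {o : V → V → Prop}

namespace Fin

variable {ρ : V → V → Prop} {E : V → V → Prop}

theorem rtg_symm {X : Type} {r : X → X → Prop} (hr : ∀ x y, r x y → r y x) {x y : X}
    (h : ReflTransGen r x y) : ReflTransGen r y x := by
  induction h with
  | refl => exact ReflTransGen.refl
  | tail _ hbc ih => exact ReflTransGen.head (hr _ _ hbc) ih

theorem reE_symm (h : Nd E σ ρ o) {x y : V} (hr : ReE E ρ x y) : ReE E ρ y x := by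
  refine rtg_symm ?_ hr
  rintro u v ⟨h1, h2⟩
  exact ⟨h.rs _ _ h1, h.es _ _ h2⟩

theorem reN_symm (h : Nd E σ ρ o) {x y : V} (hr : ReN E σ ρ x y) : ReN E σ ρ y x := by
  refine rtg_symm ?_ hr
  rintro u v ⟨h1, h2, h3⟩
  exact ⟨h.rs _ _ h1, fun h4 => h2 (h.ss _ _ h4), fun h4 => h3 (h.es _ _ h4)⟩

theorem con_of (h : Nd E σ ρ o) {x y : V} (hxy : ρ x y) (hc : Con E ρ x) : Con E ρ y :=
  fun z hz => (reE_symm h (hc y hxy)).trans (hc z (h.rt _ _ _ hxy hz))

theorem coc_of (h : Nd E σ ρ o) {x y : V} (hxy : ρ x y) (hc : Coc E σ ρ x) : Coc E σ ρ y :=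
  fun z hz => (reN_symm h (hc y hxy)).trans (hc z (h.rt _ _ _ hxy hz))

theorem reD_flip (h : Nd E σ ρ o) {x y u v : V} (hxy : ρ x y) (hσ : ¬ σ x y) (hu : ρ x u)
    (hr : ReD E σ ρ x u v) : ReD E σ ρ y v u := by
  have key : ρ x v ∧ ReD E σ ρ y v u := by
    induction hr with
    | refl => exact ⟨hu, ReflTransGen.refl⟩
    | @tail b c _ hbc ih =>
      obtain ⟨h1, h2, h3⟩ := hbc
      have hc : ρ x c := h.rt _ _ _ ih.1 h1
      refine ⟨hc, ReflTransGen.head ⟨h.rs _ _ h1, fun h4 => h2 (h.ss _ _ h4), ?_⟩ ih.2⟩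
      -- E c b ↔ σ y c
      have e1 : E c b ↔ σ x b := ⟨fun h4 => h3.1 (h.es _ _ h4), fun h4 => h.es _ _ (h3.2 h4)⟩
      rw [e1]
      constructor
      · intro h4
        have h5 : ¬ σ x c := fun h5 => h2 (h.st _ _ _ (h.ss _ _ h4) h5)
        exact h.s3 y x c (h.rs _ _ hxy) hc (fun h6 => hσ (h.ss _ _ h6)) h5
      · intro h4
        have h5 : ¬ σ x c := fun h5 => hσ (h.st _ _ _ h5 (h.ss _ _ h4))
        exact h.s3 x c b hc (h.rs _ _ h1) h5 (fun h6 => h2 (h.ss _ _ h6))
  exact key.2

theorem reD_same (h : Nd E σ ρ o) {x y u v : V} (hσ : σ x y)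
    (hr : ReD E σ ρ x u v) : ReD E σ ρ y u v := by
  unfold ReD at hr ⊢
  refine ReflTransGen.mono ?_ _ _ hr
  rintro b c ⟨h1, h2, h3⟩
  refine ⟨h1, h2, h3.trans ⟨fun h4 => h.st _ _ _ (h.ss _ _ hσ) h4, fun h4 => h.st _ _ _ hσ h4⟩⟩

theorem str_of (h : Nd E σ ρ o) {x y : V} (hxy : ρ x y) (hs : Str E σ ρ x) : Str E σ ρ y := by
  intro u v hu hv
  have hu' := h.rt _ _ _ hxy hu
  have hv' := h.rt _ _ _ hxy hv
  by_cases hσ : σ x y
  · exact reD_same h hσ (hs u v hu' hv')
  · exact reD_flip h hxy hσ hv' (hs v u hv' hu')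

end Fin

/-- **Nodes of equivalent vertices are isomorphic.** -/
theorem node_iso (hN : 5 ≤ N) (hσ : Iv G N σ) (n : ℕ) :
    ∀ ρ : V → V → Prop, Nd G.Adj σ ρ o → Iv G N ρ → ∀ (y : V) (y' : W),
      {z | ρ y z}.ncard ≤ n → T G H N [(y, y')] →
        ∃ f, Is G H σ ρ (Im G H N σ) (Im G H N ρ) y y' f := by
  classical
  induction n with
  | zero =>
    intro ρ h _ y y' hn _
    exfalso
    have h1 : {z | ρ y z} = ∅ := (Set.ncard_eq_zero (Set.toFinite _)).1 (Nat.le_zero.1 hn)
    have h2 : y ∈ {z | ρ y z} := h.rr y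
    rw [h1] at h2
    exact h2
  | succ n ih =>
    intro ρ h hi y y' hn hT
    have eσ : Equivalence σ := ⟨h.sr, fun {a b} => h.ss a b, fun {a b c} => h.st a b c⟩
    have eρ : Equivalence ρ := ⟨h.rr, fun {a b} => h.rs a b, fun {a b c} => h.rt a b c⟩
    by_cases htr : ∀ z, ρ y z → z = y
    · refine ⟨fun _ => y', ⟨?_, ?_, ?_⟩, ?_, ?_⟩
      · intro z hz
        exact ⟨y, y, hT.mono (by simp), h.rr y⟩
      · intro a ha b hb _
        rw [htr a ha, htr b hb]
      · intro z' hz'
        obtain ⟨z, hz⟩ := T_back hT (by simp; omega) (by simp) z'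
        have h1 : ρ y z := (im_iff hN hi (hz.mono (by simp))).2 hz'
        have h2 := htr z h1
        refine ⟨y, h.rr y, ?_⟩
        exact (T.eq_iff (by omega) hz (a := (y, y')) (b := (z, z')) (by simp) (by simp)).1 h2.symm
      · intro u v hu hv
        rw [htr u hu, htr v hv]
        exact ⟨fun h1 => absurd h1 (G.irrefl), fun h1 => absurd h1 (H.irrefl)⟩
      · intro u hu
        rw [htr u hu]
        exact ⟨fun _ => ⟨y, y, hT.mono (by simp), h.sr y⟩, fun _ => h.sr y⟩
    · push Not at htr
      obtain ⟨w, hw, hwy⟩ := htr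
      have hη : Nd G.Adj σ (Nx G.Adj σ ρ) o := nx_nd h
      have iη : Iv G N (Nx G.Adj σ ρ) := iv_Nx hN hσ hi
      have eη : Equivalence (Nx G.Adj σ ρ) :=
        ⟨hη.rr, fun {a b} => hη.rs a b, fun {a b c} => hη.rt a b c⟩
      have hle : ∀ x y, Nx G.Adj σ ρ x y → ρ x y := fun x y hxy => nx_le h hxy
      have ih' : ∀ z z', ρ y z → T G H N [(z, z')] →
          ∃ f, Is G H σ (Nx G.Adj σ ρ) (Im G H N σ) (Im G H N (Nx G.Adj σ ρ)) z z' f := by
        intro z z' hz hz'
        refine ih _ hη iη z z' ?_ hz'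
        have h1 : {u | Nx G.Adj σ ρ z u} ⊂ {u | ρ y u} := by
          refine (Set.ssubset_iff_of_subset ?_).2 ?_
          · intro u hu
            exact h.rt _ _ _ hz (hle _ _ hu)
          · obtain ⟨w', hw', hwne⟩ : ∃ w', ρ z w' ∧ z ≠ w' := by
              by_cases hzy : z = y
              · subst hzy
                exact ⟨w, hw, fun h1 => hwy h1.symm⟩
              · exact ⟨y, h.rs _ _ hz, hzy⟩
            obtain ⟨t, ht, ht'⟩ := nx_proper h hw' hwne
            exact ⟨t, h.rt _ _ _ hz ht, ht'⟩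
        have h2 := Set.ncard_lt_ncard h1 (Set.toFinite _)
        omega
      by_cases hc : Con G.Adj ρ y
      · by_cases hn : Coc G.Adj σ ρ y
        · by_cases hs : Str G.Adj σ ρ y
          · obtain ⟨a, b, ha, hab⟩ := exists_span h hw (Ne.symm hwy) hc hn hs
            obtain ⟨a', ha'⟩ := T_forth hT (by simp; omega) (by simp) a
            obtain ⟨b', hb'⟩ := T_forth ha' (by simp; omega) (by simp) b
            have hd : ∀ z z₁, ρ a z → ρ a z₁ → σ z z₁ → T G G N [(z, z₁), (a, a), (b, b)] →
                Nx G.Adj σ ρ z z₁ := by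
              intro z z₁ hz hz1 hzz hTz
              have h1 := disc4 hN h hσ hi hab hz hz1 hzz hTz
              have hyz := h.rt _ _ _ ha hz
              exact Or.inr (Or.inr (Or.inr ⟨Fin.con_of h hyz hc, Fin.coc_of h hyz hn,
                Fin.str_of h hyz hs, Or.inl h1⟩))
            obtain ⟨f, hf⟩ := lift_disc hN eσ eρ eη hle hσ hi iη h.s3 hη.mod
              (r := a) (s := b) (r' := a') (s' := b') (hb'.mono (by
                intro e he
                simp only [List.mem_cons, List.not_mem_nil, or_false] at he ⊢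
                tauto)) hab.2.1 hd
              (fun z z' hz hz' => ih' z z' (h.rt _ _ _ ha hz) (hz'.mono (by
                intro e he
                simp only [List.mem_cons, List.not_mem_nil, or_false] at he ⊢
                tauto)))
            exact ⟨f, is_base hN eσ eρ hσ hi h.s3 (ha'.mono (by
                intro e he
                simp only [List.mem_cons, List.not_mem_nil, or_false] at he ⊢
                tauto)) (h.rs _ _ ha) hf⟩
          · have hd : ∀ z z₁, ρ y z → ρ y z₁ → σ z z₁ → T G G N [(z, z₁), (y, y), (y, y)] →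
                Nx G.Adj σ ρ z z₁ := by
              intro z z₁ hz hz1 hzz hTz
              have h1 := disc3 hN h hσ hi hz hz1 hzz (hTz.mono (by
                intro e he
                simp only [List.mem_cons, List.not_mem_nil, or_false] at he ⊢
                tauto))
              exact Or.inr (Or.inr (Or.inl ⟨Fin.con_of h hz hc, Fin.coc_of h hz hn,
                fun h2 => hs (Fin.str_of h (h.rs _ _ hz) h2), h1⟩))
            exact lift_disc hN eσ eρ eη hle hσ hi iη h.s3 hη.mod
              (r := y) (s := y) (r' := y') (s' := y') (hT.mono (by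
                intro e he
                simp only [List.mem_cons, List.not_mem_nil, or_false] at he ⊢
                tauto)) (h.rr y) hd
              (fun z z' hz hz' => ih' z z' hz (hz'.mono (by
                intro e he
                simp only [List.mem_cons, List.not_mem_nil, or_false] at he ⊢
                tauto)))
        · refine lift_const hN eσ eρ eη hle hσ hi iη h.s3 hT True ?_ ?_
          · intro u v hu hv huv
            rw [cross2 h hc hn hu hv huv]
            exact ⟨fun h1 => ⟨trivial, h1⟩, fun h1 => h1.2⟩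
          · intro z z' hz hz'
            exact ih' z z' hz (hz'.mono (by
                intro e he
                simp only [List.mem_cons, List.not_mem_nil, or_false] at he ⊢
                tauto))
      · refine lift_const hN eσ eρ eη hle hσ hi iη h.s3 hT False ?_ ?_
        · intro u v hu hv huv
          exact ⟨fun h1 => absurd h1 (cross1 h hc hu hv huv), fun h1 => h1.1.elim⟩
        · intro z z' hz hz'
          exact ih' z z' hz (hz'.mono (by
                intro e he
                simp only [List.mem_cons, List.not_mem_nil, or_false] at he ⊢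
                tauto))

/-- **Bipartite graphs with oriented induced matchings are identified by the five-dimensional method.** -/
theorem main_bip (hN : 5 ≤ N) (hG : Oriented G.Adj) (hW : WLEquivalent N G H) :
    Nonempty (G ≃g H) := by
  classical
  rcases isEmpty_or_nonempty V with hV | ⟨⟨v0⟩⟩
  · obtain ⟨ψ, -⟩ := hW
    have hW : IsEmpty W := by
      refine ⟨fun w => ?_⟩
      exact hV.false ((ψ.symm fun _ => w) ⟨0, by omega⟩)
    exact ⟨⟨Equiv.equivOfIsEmpty V W, fun {a} => (hV.false a).elim⟩⟩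
  obtain ⟨β, hβ⟩ := T.start hW (by omega) v0
  obtain ⟨o, hnd⟩ := nd_top hG
  have iσ : Iv G N (Sd G.Adj) := iv_sd hN
  have iρ : Iv G N (ReflTransGen G.Adj) := iv_rtg hN (iv_adj hN)
  have eρ : Equivalence (ReflTransGen G.Adj) :=
    ⟨hnd.rr, fun {a b} => hnd.rs a b, fun {a b c} => hnd.rt a b c⟩
  have eρ' : Equivalence (Im G H N (ReflTransGen G.Adj)) := im_equiv hN iρ eρ (hβ v0)
  obtain ⟨f, hf, hΦ⟩ := exists_matching (ReflTransGen G.Adj) (Im G H N (ReflTransGen G.Adj))
    eρ eρ' Set.univ Set.univ (fun _ _ _ _ => trivial) (fun _ _ _ _ => trivial) β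
    (fun _ => Iff.rfl)
    (fun x x' f => Set.BijOn f {y | ReflTransGen G.Adj x y}
        {y | Im G H N (ReflTransGen G.Adj) x' y} ∧
      ∀ u ∈ {y | ReflTransGen G.Adj x y}, ∀ v ∈ {y | ReflTransGen G.Adj x y},
        (G.Adj u v ↔ H.Adj (f u) (f v)))
    (fun x x' f h => h.1)
    (fun x y x' y' f h h' h'' => by
      have e1 : {z | ReflTransGen G.Adj y z} = {z | ReflTransGen G.Adj x z} := by
        ext z
        exact ⟨fun k => eρ.trans h k, fun k => eρ.trans (eρ.symm h) k⟩
      have e2 : {z | Im G H N (ReflTransGen G.Adj) y' z} =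
          {z | Im G H N (ReflTransGen G.Adj) x' z} := by
        ext z
        exact ⟨fun k => eρ'.trans h' k, fun k => eρ'.trans (eρ'.symm h') k⟩
      rw [e1, e2]
      exact h'')
    (fun x x' f g h h' => by
      refine ⟨h'.1.congr h, ?_⟩
      intro u hu v hv
      rw [← h u hu, ← h v hv]
      exact h'.2 u hu v hv)
    (fun x _ => by
      obtain ⟨f, h1, h2, -⟩ := node_iso hN iσ _ _ hnd iρ x (β x) le_rfl (hβ x)
      exact ⟨f, h1, fun u hu v hv => h2 u v hu hv⟩)
  have hinj : Function.Injective f := fun x y hxy => hf.injOn trivial trivial hxy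
  have hsurj : Function.Surjective f := fun y => by
    obtain ⟨x, -, hx⟩ := hf.surjOn (Set.mem_univ y)
    exact ⟨x, hx⟩
  refine ⟨⟨Equiv.ofBijective f ⟨hinj, hsurj⟩, ?_⟩⟩
  intro u v
  show H.Adj (f u) (f v) ↔ G.Adj u v
  obtain ⟨h1, h2⟩ := hΦ u trivial
  constructor
  · intro h3
    have h4 : f v ∈ {y | Im G H N (ReflTransGen G.Adj) (f u) y} := by
      obtain ⟨x, hx⟩ := T_back (hβ v0) (by simp; omega) (by simp) (f u)
      obtain ⟨w, hw⟩ := T_back hx (by simp; omega) (by simp) (f v)
      refine ⟨x, w, hw.mono (by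
                intro e he
                simp only [List.mem_cons, List.not_mem_nil, or_false] at he ⊢
                tauto), ReflTransGen.single ?_⟩
      exact (T.adj_iff (by omega) hw (a := (x, f u)) (b := (w, f v)) (by simp) (by simp)).2 h3
    obtain ⟨u1, h5, h6⟩ := h1.surjOn h4
    have h7 := hinj h6
    subst h7
    exact (h2 u ReflTransGen.refl u1 h5).2 h3
  · intro h3
    exact (h2 u ReflTransGen.refl v (ReflTransGen.single h3)).1 h3

/-- the complementary form -/
theorem main_cobip (hN : 5 ≤ N) (hG : Oriented Gᶜ.Adj) (hW : WLEquivalent N G H) :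
    Nonempty (G ≃g H) := by
  obtain ⟨φ⟩ := main_bip hN hG (wl_compl hW)
  refine ⟨⟨φ.toEquiv, ?_⟩⟩
  intro u v
  have h1 := φ.map_rel_iff (a := u) (b := v)
  have h2 : φ u = φ v ↔ u = v := φ.injective.eq_iff
  simp only [SimpleGraph.compl_adj] at h1
  show H.Adj (φ u) (φ v) ↔ G.Adj u v
  by_cases huv : u = v
  · subst huv
    simp
  · have h3 : φ u ≠ φ v := fun h => huv (h2.1 h)
    constructor
    · intro h4
      by_contra h5
      exact (h1.2 ⟨huv, h5⟩).2 h4
    · intro h4
      by_contra h5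
      exact (h1.1 ⟨h3, h5⟩).2 h4

end Pool.Agent.J4.H24.CI
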