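import Pool.Agent.J4.H24.CI.Defs

/-! Project CF, piece PR: the refinement is proper (with the other pieces as hypotheses). -/

set_option autoImplicit false

namespace Pool.Agent.J4.H24.CI

open Relation

variable {V : Type} {E σ ρ : V → V → Prop} {o : V → V → Prop}

namespace PrA

/-- the first step of a walk in a relation, to another vertex -/
lemma first {r : V → V → Prop} {x y : V} (h : ReflTransGen r x y) (hne : x ≠ y) :
    ∃ w, r x w ∧ ReflTransGen r w y := by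
  rcases ReflTransGen.cases_head h with e | ⟨w, h1, h2⟩
  · exact absurd e hne
  · exact ⟨w, h1, h2⟩

/-- case 3 -/
lemma case3 (h : Nd E σ ρ o) {x y : V} (hxy : ρ x y) (hne : x ≠ y) (_hc : Con E ρ x)
    (hn : Coc E σ ρ x) (hs : ¬ Str E σ ρ x) : ∃ z, ρ x z ∧ ¬ N3 E σ ρ x z := by
  by_contra hcon
  push Not at hcon
  -- a non-neighbour of `x` on the other side
  obtain ⟨w', ⟨hw1, hw2, hw3⟩, -⟩ := first (hn y hxy) hne
  have hw' : ReD E σ ρ x x w' ∧ ReD E σ ρ x w' x := by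
    rcases hcon w' hw1 with ⟨-, h1, -⟩ | h1
    · exact absurd h1 hw2
    · exact h1
  have hwx : w' ≠ x := fun e => hw2 (e ▸ h.sr x)
  -- the first step from `x`
  obtain ⟨w1, ⟨h1, h2, h3⟩, h4⟩ := first hw'.1 hwx.symm
  have h3' : E x w1 := h3.2 (h.sr x)
  have key : ∀ z, ρ x z → ReD E σ ρ x x z ∧ ReD E σ ρ x z x := by
    intro z hz
    rcases hcon z hz with ⟨-, h5, h6⟩ | h5
    · constructor
      · refine hw'.1.tail ⟨h.rt _ _ _ (h.rs _ _ hw1) hz, fun h7 => ?_, ?_⟩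
        · exact hw2 (h.st _ _ _ h5 (h.ss _ _ h7))
        · constructor
          · intro h7
            exact absurd ((h6 w').2 (h.es _ _ h7)) hw3
          · intro h7
            exact absurd h7 hw2
      · refine ReflTransGen.head (b := w1) ⟨h.rt _ _ _ (h.rs _ _ hz) h1, fun h7 => ?_, ?_⟩
          (h4.trans hw'.2)
        · exact h2 (h.st _ _ _ h5 h7)
        · exact ⟨fun _ => h5, fun _ => (h6 w1).1 h3'⟩
    · exact h5
  exact hs fun u v hu hv => (key u hu).2.trans (key v hv).1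

/-- case 4 -/
lemma case4 (h : Nd E σ ρ o)
    (s_symm : ∀ {u v : V}, S E σ ρ u v → S E σ ρ v u)
    (s_rho : ∀ {u v : V}, S E σ ρ u v → ρ u v ∧ σ u v)
    (not_S : ∀ {a x : V}, Span E σ ρ a x → ¬ S E σ ρ a x)
    (lk_symm : ∀ {u v : V}, Lk E σ ρ u v → Lk E σ ρ v u)
    (lk_trans : ∀ {u v w : V}, Lk E σ ρ u v → Lk E σ ρ v w → S E σ ρ u w)
    {x a b : V} (ha : ρ x a) (hab : Span E σ ρ a b) : ∃ z, ρ x z ∧ ¬ N4 E σ ρ x z := by
  by_contra hcon
  push Not at hcon
  have hσ : σ a b := hab.1.1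
  have hb : ρ x b := h.rt _ _ _ ha hab.2.1
  rcases hcon a ha with h1 | h1 <;> rcases hcon b hb with h2 | h2
  · exact not_S hab ((s_symm h1).trans h2)
  · exact h2.2.1 (h.st _ _ _ (s_rho h1).2 hσ)
  · exact h1.2.1 (h.st _ _ _ (s_rho h2).2 (h.ss _ _ hσ))
  · exact not_S hab (lk_trans (lk_symm h1) h2)

end PrA

open PrA in
theorem nx_proper_of (h : Nd E σ ρ o)
    (exists_span : ∀ {x y : V}, ρ x y → x ≠ y → Con E ρ x → Coc E σ ρ x → Str E σ ρ x →
      ∃ a b, ρ x a ∧ Span E σ ρ a b)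
    (s_symm : ∀ {u v : V}, S E σ ρ u v → S E σ ρ v u)
    (s_rho : ∀ {u v : V}, S E σ ρ u v → ρ u v ∧ σ u v)
    (not_S : ∀ {a x : V}, Span E σ ρ a x → ¬ S E σ ρ a x)
    (lk_symm : ∀ {u v : V}, Lk E σ ρ u v → Lk E σ ρ v u)
    (lk_trans : ∀ {u v w : V}, Lk E σ ρ u v → Lk E σ ρ v w → S E σ ρ u w)
    {x y : V} (hxy : ρ x y) (hne : x ≠ y) : ∃ z, ρ x z ∧ ¬ Nx E σ ρ x z := by
  by_cases hc : Con E ρ x
  · by_cases hn : Coc E σ ρ x
    · by_cases hs : Str E σ ρ x
      · obtain ⟨a, b, ha, hab⟩ := exists_span hxy hne hc hn hs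
        obtain ⟨z, hz, h1⟩ := case4 h s_symm s_rho not_S lk_symm lk_trans ha hab
        refine ⟨z, hz, ?_⟩
        rintro (h2 | h2 | h2 | h2)
        · exact h2.1 hc
        · exact h2.2.1 hn
        · exact h2.2.2.1 hs
        · exact h1 h2.2.2.2
      · obtain ⟨z, hz, h1⟩ := case3 h hxy hne hc hn hs
        refine ⟨z, hz, ?_⟩
        rintro (h2 | h2 | h2 | h2)
        · exact h2.1 hc
        · exact h2.2.1 hn
        · exact h1 h2.2.2.2
        · exact hs h2.2.2.1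
    · have hn' := hn
      unfold Coc at hn'
      push Not at hn'
      obtain ⟨z, hz, h1⟩ := hn'
      refine ⟨z, hz, ?_⟩
      rintro (h2 | h2 | h2 | h2)
      · exact h2.1 hc
      · exact h1 h2.2.2
      · exact hn h2.2.1
      · exact hn h2.2.1
  · have hc' := hc
    unfold Con at hc'
    push Not at hc'
    obtain ⟨z, hz, h1⟩ := hc'
    refine ⟨z, hz, ?_⟩
    rintro (h2 | h2 | h2 | h2)
    · exact h1 h2.2
    · exact hc h2.1
    · exact hc h2.1
    · exact hc h2.1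

end Pool.Agent.J4.H24.CI
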