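import Pool.Agent.J4.H24.CI.Defs
import Pool.Agent.J4.H77.CG.Tup
import Pool.Agent.J4.H77.CG.Match

/-!
# Cross-free bipartite graphs: definitions for the method
-/

set_option autoImplicit false

namespace Pool.Agent.J4.H24.CI

open Relation Pool.Agent.W185.SRG Pool.Agent.J4.H77.CG

variable {V W : Type} [Fintype V] [Fintype W]

/-- even walks -/
def Sd {V : Type} (E : V → V → Prop) : V → V → Prop := ReflTransGen fun x z => ∃ y, E x y ∧ E y z

/-- invariance under the method -/
def Iv (G : SimpleGraph V) (N : ℕ) (r : V → V → Prop) : Prop :=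
  ∀ x x' y y', T G G N [(x, x'), (y, y')] → r x y → r x' y'

/-- the image of a relation -/
def Im (G : SimpleGraph V) (H : SimpleGraph W) (N : ℕ) (r : V → V → Prop) (y' z' : W) : Prop :=
  ∃ y z, T G H N [(y, y'), (z, z')] ∧ r y z

/-- `f` is an isomorphism of the node of `x` to the node of `x'` -/
def Is (G : SimpleGraph V) (H : SimpleGraph W) (σ ρ : V → V → Prop) (σ' ρ' : W → W → Prop)
    (x : V) (x' : W) (f : V → W) : Prop :=
  Set.BijOn f {z | ρ x z} {z' | ρ' x' z'} ∧
    (∀ u v, ρ x u → ρ x v → (G.Adj u v ↔ H.Adj (f u) (f v))) ∧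
    ∀ u, ρ x u → (σ x u ↔ σ' x' (f u))

variable {G : SimpleGraph V} {H : SimpleGraph W} {N : ℕ}

theorem T_forth {L : List (V × W)} (h : T G H N L) (hl : L.length ≤ N) (hne : L ≠ []) (x : V) :
    ∃ x', T G H N ((x, x') :: L) := by
  obtain ⟨β, hβ⟩ := h.step hl hne
  exact ⟨β x, hβ x⟩

theorem T_back {L : List (V × W)} (h : T G H N L) (hl : L.length ≤ N) (hne : L ≠ []) (x' : W) :
    ∃ x, T G H N ((x, x') :: L) := by
  obtain ⟨β, hβ⟩ := h.step hl hne
  have := hβ (β.symm x')
  rw [β.apply_symm_apply] at this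
  exact ⟨β.symm x', this⟩

end Pool.Agent.J4.H24.CI
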